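import Pool.Agent.U553.LY.D

/-! Deletion for Lyndon words (helper553). -/

set_option autoImplicit false

namespace Pool.Agent.U553.LY

open Finset Pool.Agent.U553.DL Pool.Agent.Y760.ZG Pool.Agent.Y760.ZF Pool.Agent.X90.DB

/-- length, letters and first letter -/
def InR (N M ℓ : ℕ) (w : List ℕ) : Prop :=
  w.length ≤ ℓ ∧ (∀ m ∈ w, 1 ≤ m ∧ m ≤ M) ∧ ∀ m ∈ w.head?, N ≤ m

/-- **deletion for Lyndon words** -/
theorem delLyn (n ℓ κ a t D : ℕ) (C : ℝ) (α : Fin a → ℂ) (hα : ∀ i, IsAlgebraic ℤ (α i)) :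
    ∃ N₀ : ℕ, ∀ N : ℕ, N₀ ≤ N → ∀ (x : Fin t → ℂ) (S : Finset (List ℕ)), S.card ≤ n →
      (∀ w ∈ S, Lyn w ∧ InR N (κ * N) ℓ w) →
      ∃ S' : Finset (List ℕ), S' ⊆ S ∧ S.card ≤ S'.card + t ∧
        IndG (Sum.elim α x) (fun w => ((mz w : ℝ) : ℂ)) S' D (C ^ N) := by
  classical
  choose N0 h0 using fun n => delW n ℓ κ a t D C α hα
  refine ⟨2 + ∑ m ∈ Finset.range (n + 1), N0 m, fun N hN x S hSn hS => ?_⟩
  have hNm : N0 S.card ≤ N := by
    have := Finset.single_le_sum (f := N0) (fun _ _ => Nat.zero_le _) (Finset.mem_range.2 (by omega : S.card < n + 1))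
    omega
  set e := S.equivFin.symm with he
  set s : Fin S.card → List ℕ := fun i => e i with hs
  have hinj : Function.Injective s := fun i j hij => e.injective (Subtype.ext hij)
  have hsS : ∀ i, s i ∈ S := fun i => (e i).2
  have hN2 : 2 ≤ N := by omega
  obtain ⟨J, hJ, h1⟩ := h0 S.card N hNm x s (fun i => by
      obtain ⟨-, h2, h3, h4⟩ := hS _ (hsS i)
      refine ⟨h2, fun m hm => ⟨(h3 m hm).1, ?_⟩, h4⟩
      have := (h3 m hm).2
      exact_mod_cast this)
    (fun i => by
      obtain ⟨h1, h2, h3, h4⟩ := hS _ (hsS i)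
      have h5 := h1.1
      generalize s i = w at h2 h3 h4 h5
      cases w with
      | nil => exact absurd rfl h5
      | cons b w =>
        exact ⟨hN2.trans (h4 b rfl), fun c hc => (h3 c (List.mem_cons_of_mem _ hc)).1⟩)
    (FI_lyn hinj fun i => (hS _ (hsS i)).1)
  refine ⟨J.image s, ?_, ?_, ?_⟩
  · intro m hm
    obtain ⟨i, -, rfl⟩ := Finset.mem_image.1 hm
    exact hsS i
  · rwa [Finset.card_image_of_injective _ hinj]
  · intro P hPD hPC hP0 y
    have hmem : ∀ m : J.image s, ∃ i : J, s i = m := by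
      intro m
      obtain ⟨i, hi, h⟩ := Finset.mem_image.1 m.2
      exact ⟨⟨i, hi⟩, h⟩
    choose g hg using hmem
    set G' : (Fin a ⊕ Fin t) ⊕ J.image s → (Fin a ⊕ Fin t) ⊕ J := Sum.map id g with hG
    have hgi : Function.Injective G' := by
      refine Function.injective_id.sumMap fun m m' h => ?_
      refine Subtype.ext ?_
      rw [← hg m, ← hg m', h]
    have h2 := h1 (MvPolynomial.rename G' P) ((MvPolynomial.totalDegree_rename_le _ _).trans hPD)
      (height_rename G' hgi hPC) (by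
        rw [MvPolynomial.aeval_rename, ← hP0]
        congr 2
        funext i
        rcases i with i | i
        · rfl
        · simp only [hG, Function.comp_apply, Sum.map_inr, Sum.elim_inr]
          rw [hg i]) (fun i => y ⟨s i, Finset.mem_image_of_mem s i.2⟩)
    rw [MvPolynomial.aeval_rename] at h2
    rw [← h2]
    congr 2
    funext i
    rcases i with i | i
    · rfl
    · simp only [hG, Function.comp_apply, Sum.map_inr, Sum.elim_inr]
      congr 1
      exact Subtype.ext (hg i).symm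

lemma finite_InR (N M ℓ : ℕ) : {w : List ℕ | Lyn w ∧ InR N M ℓ w}.Finite := by
  have h1 : {w : List (Fin (M + 1)) | w.length ≤ ℓ}.Finite := List.finite_length_le _ _
  refine (h1.image fun w : List (Fin (M + 1)) => w.map Fin.val).subset ?_
  rintro w ⟨-, h2, h3, -⟩
  refine ⟨w.attach.map fun m : {m // m ∈ w} => ⟨m.1, by have := (h3 m.1 m.2).2; omega⟩, ?_, ?_⟩
  · simpa using h2
  · simp only [List.map_map]
    exact List.attach_map_subtype_val w

end Pool.Agent.U553.LY
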