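import Mathlib

/-! Words and merges (helper553). `S u v`: at the first difference of `u` and `v` the letter of `u` is the larger one (so `u` is
smaller than `v` for the reversed order of the letters). -/

set_option autoImplicit false

namespace Pool.Agent.U553.LY

/-- strong comparison -/
def S : List ℕ → List ℕ → Prop
  | [], _ => False
  | _ :: _, [] => False
  | a :: u, b :: v => b < a ∨ (a = b ∧ S u v)

lemma S_cons {a b : ℕ} {u v : List ℕ} : S (a :: u) (b :: v) ↔ b < a ∨ (a = b ∧ S u v) := Iff.rfl

lemma S_nil_left (v : List ℕ) : ¬ S [] v := by simp [S]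

lemma S_nil_right (u : List ℕ) : ¬ S u [] := by cases u <;> simp [S]

lemma S_cons_same (a : ℕ) {u v : List ℕ} : S (a :: u) (a :: v) ↔ S u v := by simp [S]

lemma S_append_same (p : List ℕ) {u v : List ℕ} : S (p ++ u) (p ++ v) ↔ S u v := by
  induction p with
  | nil => rfl
  | cons a p ih => rw [List.cons_append, List.cons_append, S_cons_same, ih]

lemma S_trans : ∀ {u v w : List ℕ}, S u v → S v w → S u w
  | [], _, _, h, _ => absurd h (S_nil_left _)
  | _ :: _, [], _, h, _ => absurd h (S_nil_right _)
  | _ :: _, _ :: _, [], _, h => absurd h (S_nil_right _)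
  | a :: u, b :: v, c :: w, h1, h2 => by
    rw [S_cons] at h1 h2 ⊢
    rcases h1 with h1 | ⟨h1, h1'⟩ <;> rcases h2 with h2 | ⟨h2, h2'⟩
    · left; omega
    · left; omega
    · left; omega
    · exact Or.inr ⟨by omega, S_trans h1' h2'⟩

lemma S_irrefl : ∀ u : List ℕ, ¬ S u u
  | [] => S_nil_left _
  | a :: u => by
    rw [S_cons]
    rintro (h | ⟨-, h⟩)
    · omega
    · exact S_irrefl u h

lemma S_append : ∀ {u v : List ℕ} (x y : List ℕ), S u v → S (u ++ x) (v ++ y)
  | [], _, _, _, h => absurd h (S_nil_left _)
  | _ :: _, [], _, _, h => absurd h (S_nil_right _)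
  | a :: u, b :: v, x, y, h => by
    rw [S_cons] at h
    rw [List.cons_append, List.cons_append, S_cons]
    rcases h with h | ⟨h, h'⟩
    · exact Or.inl h
    · exact Or.inr ⟨h, S_append x y h'⟩

lemma S_asymm {u v : List ℕ} (h : S u v) (h' : S v u) : False := S_irrefl u (S_trans h h')

/-- no strong comparison with an extension -/
lemma S_prefix_right (u x : List ℕ) : ¬ S u (u ++ x) := by
  intro h
  have h1 := S_append (x := x) (y := []) h
  rw [List.append_nil] at h1
  exact S_irrefl _ h1

lemma S_prefix_left (u x : List ℕ) : ¬ S (u ++ x) u := by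
  intro h
  have h1 := S_append (x := []) (y := x) h
  rw [List.append_nil] at h1
  exact S_irrefl _ h1

/-- comparison of a word with a concatenation -/
lemma S_append_left : ∀ {l y X : List ℕ}, S (l ++ y) X → S l X ∨ ∃ X', X = l ++ X' ∧ S y X'
  | [], y, X, h => Or.inr ⟨X, rfl, h⟩
  | a :: l, y, [], h => absurd h (S_nil_right _)
  | a :: l, y, b :: X, h => by
    rw [List.cons_append, S_cons] at h
    rcases h with h | ⟨h, h'⟩
    · exact Or.inl (S_cons.2 (Or.inl h))
    · subst h
      rcases S_append_left h' with h1 | ⟨X', rfl, h1⟩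
      · exact Or.inl ((S_cons_same a).2 h1)
      · exact Or.inr ⟨X', rfl, h1⟩

/-- the common prefix -/
lemma common (s m : List ℕ) : ∃ p s' m' : List ℕ, s = p ++ s' ∧ m = p ++ m' ∧
    (s' = [] ∨ m' = [] ∨ ∃ a b s₂ m₂, s' = a :: s₂ ∧ m' = b :: m₂ ∧ a ≠ b) := by
  induction s generalizing m with
  | nil => exact ⟨[], [], m, rfl, rfl, Or.inl rfl⟩
  | cons a s ih =>
    cases m with
    | nil => exact ⟨[], a :: s, [], rfl, rfl, Or.inr (Or.inl rfl)⟩
    | cons b m =>
      by_cases hab : a = b
      · subst hab
        obtain ⟨p, s', m', h1, h2, h3⟩ := ih m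
        exact ⟨a :: p, s', m', by rw [h1]; rfl, by rw [h2]; rfl, h3⟩
      · exact ⟨[], a :: s, b :: m, rfl, rfl, Or.inr (Or.inr ⟨a, b, s, m, rfl, rfl, hab⟩)⟩

/-- weak comparison (for words of the same length) -/
def Wle (u v : List ℕ) : Prop := u = v ∨ S u v

lemma Wle.refl (u : List ℕ) : Wle u u := Or.inl rfl

lemma Wle.trans {u v w : List ℕ} (h : Wle u v) (h' : Wle v w) : Wle u w := by
  rcases h with rfl | h
  · exact h'
  · rcases h' with rfl | h'
    · exact Or.inr h
    · exact Or.inr (S_trans h h')

lemma Wle.cons (a : ℕ) {u v : List ℕ} (h : Wle u v) : Wle (a :: u) (a :: v) := by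
  rcases h with rfl | h
  · exact Or.inl rfl
  · exact Or.inr ((S_cons_same a).2 h)

/-- `w` is a merge of `s` and `m` -/
inductive Mg : List ℕ → List ℕ → List ℕ → Prop
  | nil : Mg [] [] []
  | left (a : ℕ) {s m w : List ℕ} : Mg s m w → Mg (a :: s) m (a :: w)
  | right (b : ℕ) {s m w : List ℕ} : Mg s m w → Mg s (b :: m) (b :: w)

lemma Mg_nil_left : ∀ m : List ℕ, Mg [] m m
  | [] => Mg.nil
  | b :: m => Mg.right b (Mg_nil_left m)

lemma Mg_nil_right : ∀ s : List ℕ, Mg s [] s
  | [] => Mg.nil
  | b :: s => Mg.left b (Mg_nil_right s)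

lemma Mg_append (s m : List ℕ) : Mg s m (s ++ m) := by
  induction s with
  | nil => exact Mg_nil_left m
  | cons a s ih => exact Mg.left a ih

lemma Mg_append' (s m : List ℕ) : Mg s m (m ++ s) := by
  induction m with
  | nil => exact Mg_nil_right s
  | cons a m ih => exact Mg.right a ih

lemma Mg_eq_right {m w : List ℕ} (h : Mg [] m w) : w = m := by
  generalize hs : ([] : List ℕ) = s at h
  induction h with
  | nil => rfl
  | left a h ih => simp at hs
  | right b h ih => rw [ih hs]

lemma Mg_eq_left {s w : List ℕ} (h : Mg s [] w) : w = s := by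
  generalize hs : ([] : List ℕ) = m at h
  induction h with
  | nil => rfl
  | left a h ih => rw [ih hs]
  | right b h ih => simp at hs

lemma Mg_cases {s m w : List ℕ} (h : Mg s m w) : (s = [] ∧ m = [] ∧ w = []) ∨
    (∃ a s₁ w₁, s = a :: s₁ ∧ w = a :: w₁ ∧ Mg s₁ m w₁) ∨ (∃ b m₁ w₁, m = b :: m₁ ∧ w = b :: w₁ ∧ Mg s m₁ w₁) := by
  cases h with
  | nil => exact Or.inl ⟨rfl, rfl, rfl⟩
  | left a h => exact Or.inr (Or.inl ⟨a, _, _, rfl, rfl, h⟩)
  | right b h => exact Or.inr (Or.inr ⟨b, _, _, rfl, rfl, h⟩)

/-- merges are monotone in the second word -/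
lemma Mg_mono {s u w : List ℕ} (h : Mg s u w) : ∀ {m : List ℕ}, S u m → ∃ w', Mg s m w' ∧ Wle w w' := by
  induction h with
  | nil => intro m hm; exact absurd hm (S_nil_left _)
  | left a h ih =>
    intro m hm
    obtain ⟨w', h1, h2⟩ := ih hm
    exact ⟨a :: w', Mg.left a h1, h2.cons a⟩
  | right b h ih =>
    intro m hm
    cases m with
    | nil => exact absurd hm (S_nil_right _)
    | cons b' m =>
      rename_i s u w
      rw [S_cons] at hm
      rcases hm with hm | ⟨rfl, hm⟩
      · exact ⟨b' :: (s ++ m), Mg.right b' (Mg_append s m), Or.inr (S_cons.2 (Or.inl hm))⟩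
      · obtain ⟨w', h1, h2⟩ := ih hm
        exact ⟨b :: w', Mg.right b h1, h2.cons b⟩

lemma Mg_mono' {s u w m : List ℕ} (h : Mg s u w) (hm : Wle u m) : ∃ w', Mg s m w' ∧ Wle w w' := by
  rcases hm with rfl | hm
  · exact ⟨w, h, Wle.refl w⟩
  · exact Mg_mono h hm

/-- **reflection** -/
lemma reflect {p s' m' : List ℕ} (hbase : ∀ u, u ≠ [] → u <:+ p → ∀ w, Mg (u ++ s') m' w →
    ∃ w', Mg s' (u ++ m') w' ∧ Wle w w') : ∀ (k : ℕ) (u v : List ℕ), u.length + v.length ≤ k → u <:+ p → v <:+ u →
    ∀ w, Mg (u ++ s') (v ++ m') w → ∃ w', Mg (v ++ s') (u ++ m') w' ∧ Wle w w' := by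
  intro k
  induction k with
  | zero =>
    intro u v hk _ _ w hw
    have hu : u = [] := List.length_eq_zero_iff.1 (by omega)
    have hv : v = [] := List.length_eq_zero_iff.1 (by omega)
    subst hu; subst hv
    exact ⟨w, hw, Wle.refl w⟩
  | succ k ih =>
    intro u v hk hup hvu w hw
    by_cases huv : u = v
    · subst huv
      exact ⟨w, hw, Wle.refl w⟩
    have hu0 : u ≠ [] := by
      rintro rfl
      exact huv (List.suffix_nil.1 hvu).symm
    rcases v with _ | ⟨b, v₁⟩
    · exact hbase u hu0 hup w hw
    · obtain ⟨a, u₁, rfl⟩ := List.exists_cons_of_ne_nil hu0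
      have hvu₁ : (b :: v₁) <:+ u₁ := by
        rcases List.suffix_cons_iff.1 hvu with h | h
        · exact absurd h.symm huv
        · exact h
      simp only [List.length_cons] at hk
      rcases Mg_cases hw with ⟨h1, -, -⟩ | ⟨a', s₁, w₁, h1, rfl, h2⟩ | ⟨b', m₁, w₁, h1, rfl, h2⟩
      · simp at h1
      · rw [List.cons_append, List.cons.injEq] at h1
        obtain ⟨rfl, rfl⟩ := h1
        obtain ⟨w₁', h3, h4⟩ := ih u₁ (b :: v₁) (by simp only [List.length_cons]; omega)
          ((List.suffix_cons a u₁).trans hup) hvu₁ w₁ h2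
        exact ⟨a :: w₁', Mg.right a h3, h4.cons a⟩
      · rw [List.cons_append, List.cons.injEq] at h1
        obtain ⟨rfl, rfl⟩ := h1
        obtain ⟨w₁', h3, h4⟩ := ih (a :: u₁) v₁ (by simp only [List.length_cons]; omega) hup
          ((List.suffix_cons b v₁).trans hvu) w₁ h2
        exact ⟨b :: w₁', Mg.left b h3, h4.cons b⟩

/-- the base of the reflection if the words after the common prefix are comparable -/
lemma base_A {s' m' : List ℕ} (h : m' = [] ∨ ∃ a b s₂ m₂, s' = a :: s₂ ∧ m' = b :: m₂ ∧ a < b) :
    ∀ (u w : List ℕ), Mg (u ++ s') m' w → ∃ w', Mg s' (u ++ m') w' ∧ Wle w w' := by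
  intro u
  induction u with
  | nil => intro w hw; exact ⟨w, hw, Wle.refl w⟩
  | cons c u ih =>
    intro w hw
    rcases Mg_cases hw with ⟨h1, -, -⟩ | ⟨a', s₁, w₁, h1, rfl, h2⟩ | ⟨b', m₁, w₁, h1, rfl, h2⟩
    · simp at h1
    · rw [List.cons_append, List.cons.injEq] at h1
      obtain ⟨rfl, rfl⟩ := h1
      obtain ⟨w', h3, h4⟩ := ih w₁ h2
      exact ⟨c :: w', Mg.right c h3, h4.cons c⟩
    · rcases h with h | ⟨a, b, s₂, m₂, h5, h6, h7⟩
      · rw [h] at h1; simp at h1
      · rw [h6, List.cons.injEq] at h1
        obtain ⟨rfl, rfl⟩ := h1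
        subst h5
        refine ⟨(a :: s₂) ++ (c :: u ++ m'), Mg_append _ _, Or.inr ?_⟩
        rw [List.cons_append, S_cons]
        exact Or.inl h7

/-- the word `l` is larger than all its proper suffixes in the natural lexicographic order, and not a border: a Lyndon word for
the reversed order of the letters -/
def Lyn (l : List ℕ) : Prop := l ≠ [] ∧ ∀ s, s ≠ [] → s <:+ l → s ≠ l → S l s

/-- `a ≤ b` for the lexicographic order with reversed letters -/
def Le (a b : List ℕ) : Prop := a <+: b ∨ S a b

/-- concatenations of words `≤ l` -/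
inductive InM (l : List ℕ) : List ℕ → Prop
  | nil : InM l []
  | cons {a m : List ℕ} : a ≠ [] → Le a l → InM l m → InM l (a ++ m)

lemma InM.not_S {l m : List ℕ} (hl : Lyn l) (h : InM l m) : ¬ S l m := by
  induction h with
  | nil => exact S_nil_right _
  | @cons a m ha hal _ ih =>
    intro h
    rcases hal with ⟨y, rfl⟩ | hal
    · rw [S_append_same] at h
      by_cases hy : y = []
      · subst hy; exact S_nil_left _ h
      · have h1 : S (a ++ y) y := hl.2 y hy (List.suffix_append a y) (by
          intro h2
          have := congrArg List.length h2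
          rw [List.length_append] at this
          have h3 : a.length = 0 := by omega
          exact ha (List.length_eq_zero_iff.1 h3))
        exact ih (S_trans h1 h)
    · have h1 := S_append (x := m) (y := []) hal
      rw [List.append_nil] at h1
      exact S_asymm h h1

lemma InM.drop {l m'' : List ℕ} (hl : Lyn l) : ∀ {m : List ℕ}, InM l m → m = l ++ m'' → InM l m'' := by
  intro m h
  cases h with
  | nil =>
    intro h
    exact absurd (List.append_eq_nil_iff.1 h.symm).1 hl.1
  | @cons a m ha hal hm =>
    intro h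
    rcases hal with ⟨y, rfl⟩ | hal
    · rw [List.append_assoc] at h
      have h1 := List.append_cancel_left h
      by_cases hy : y = []
      · subst hy
        rw [h1] at hm
        exact hm
      · exfalso
        have h2 : S (a ++ y) y := hl.2 y hy (List.suffix_append a y) (by
          intro h2
          have := congrArg List.length h2
          rw [List.length_append] at this
          have h3 : a.length = 0 := by omega
          exact ha (List.length_eq_zero_iff.1 h3))
        have h3 := S_append (x := []) (y := m'') h2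
        rw [List.append_nil, ← h1] at h3
        exact hm.not_S hl h3
    · exfalso
      have h1 := S_append (x := m) (y := m'') hal
      rw [h] at h1
      exact S_irrefl _ h1

/-- **all merges of a suffix of a Lyndon word `l` and a concatenation of words `≤ l` are `≤` the concatenation** -/
theorem merge_le {l : List ℕ} (hl : Lyn l) : ∀ (n : ℕ) (s m : List ℕ), s.length + m.length ≤ n → s ≠ [] → s <:+ l →
    InM l m → ∀ w, Mg s m w → Wle w (s ++ m) := by
  intro n
  induction n with
  | zero =>
    intro s m hn hs
    exact absurd (List.length_eq_zero_iff.1 (by omega)) hs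
  | succ n ih =>
    intro s m hn hs hsl hm w hw
    have hls : s = l ∨ S l s := by
      by_cases h : s = l
      · exact Or.inl h
      · exact Or.inr (hl.2 s hs hsl h)
    rcases Mg_cases hw with ⟨h1, -, -⟩ | ⟨a, s₁, w₁, rfl, rfl, h2⟩ | ⟨b, m₁, w₁, hm1, rfl, h2⟩
    · exact absurd h1 hs
    · by_cases hs1 : s₁ = []
      · subst hs1
        rw [Mg_eq_right h2]
        exact Wle.refl _
      · simp only [List.length_cons] at hn
        exact (ih s₁ m (by omega) hs1 ((List.suffix_cons a s₁).trans hsl) hm w₁ h2).cons a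
    · obtain ⟨p, s', m', h3, h4, h5⟩ := common s m
      -- the base
      have hb : (m' = [] ∨ ∃ a b s₂ m₂, s' = a :: s₂ ∧ m' = b :: m₂ ∧ a < b) ∨ (s' = [] ∧ s = l ∧ InM l m') := by
        rcases h5 with h5 | h5 | ⟨a, b', s₂, m₂, h5, h6, h7⟩
        · right
          subst h5
          rw [List.append_nil] at h3
          rcases hls with h8 | h8
          · refine ⟨rfl, h8, hm.drop hl (m'' := m') ?_⟩
            rw [h4, ← h3, h8]
          · exfalso
            have h9 := S_append (x := []) (y := m') h8
            rw [List.append_nil, h3, ← h4] at h9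
            exact hm.not_S hl h9
        · exact Or.inl (Or.inl h5)
        · left; right
          refine ⟨a, b', s₂, m₂, h5, h6, ?_⟩
          by_contra hab
          have h8 : S s m := by
            rw [h3, h4, S_append_same, h5, h6, S_cons]
            left; omega
          rcases hls with h9 | h9
          · rw [h9] at h8
            exact hm.not_S hl h8
          · exact hm.not_S hl (S_trans h9 h8)
      rcases p with _ | ⟨c, p₁⟩
      · rw [List.nil_append] at h3 h4
        subst h3; subst h4
        rcases hb with (hb | ⟨a, b', s₂, m₂, rfl, rfl, h7⟩) | ⟨hb, -, -⟩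
        · rw [hb] at hm1; simp at hm1
        · rw [List.cons.injEq] at hm1
          obtain ⟨rfl, rfl⟩ := hm1
          right
          rw [List.cons_append, S_cons]
          exact Or.inl h7
        · exact absurd hb hs
      · have h6 : m = c :: (p₁ ++ m') := h4
        rw [hm1, List.cons.injEq] at h6
        obtain ⟨rfl, rfl⟩ := h6
        have hlen : s.length = (b :: p₁).length + s'.length := by rw [h3, List.length_append]
        have hlenm : m.length = (b :: p₁).length + m'.length := by rw [h4, List.length_append]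
        have hbase : ∀ u, u ≠ [] → u <:+ (b :: p₁) → ∀ w, Mg (u ++ s') m' w → ∃ w', Mg s' (u ++ m') w' ∧ Wle w w' := by
          intro u hu hup w' hw'
          rcases hb with hb | ⟨hb1, hb2, hb3⟩
          · exact base_A hb u w' hw'
          · subst hb1
            rw [List.append_nil] at hw' h3
            refine ⟨u ++ m', Mg_nil_left _, ih u m' ?_ hu ?_ hb3 w' hw'⟩
            · have h7 := hup.length_le
              simp only [List.length_cons, List.length_nil] at hlen hlenm h7
              omega
            · rw [← hb2, h3]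
              exact hup
        rw [h3] at h2
        obtain ⟨w₁', h7, h8⟩ := reflect hbase _ (b :: p₁) p₁ le_rfl List.suffix_rfl (List.suffix_cons b p₁) w₁ h2
        rw [← h4] at h7
        have hs1 : s = b :: (p₁ ++ s') := h3
        rw [hs1, List.cons_append]
        refine Wle.cons b (h8.trans ?_)
        by_cases h9 : p₁ ++ s' = []
        · rw [h9] at h7 ⊢
          rw [Mg_eq_right h7]
          exact Wle.refl _
        · refine ih (p₁ ++ s') m ?_ h9 ?_ hm w₁' h7
          · have : s.length = (p₁ ++ s').length + 1 := by rw [hs1, List.length_cons]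
            omega
          · rw [hs1] at hsl
            exact (List.suffix_cons b _).trans hsl

end Pool.Agent.U553.LY
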