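import Pool.Agent.U553.LY.A
import Pool.Agent.X90.DC.Ind

/-! Stuffle products of Lyndon words: the largest word (helper553). -/

set_option autoImplicit false

namespace Pool.Agent.U553.LY

open Pool.Agent.Y760.ZF Pool.Agent.X90.DC

lemma sti_merge (u v : List ℕ) : ∀ w ∈ sti u v, w.length = u.length + v.length → Mg u v w := by
  induction u, v using sti.induct with
  | case1 v =>
    intro w hw _
    rw [sti, List.mem_singleton] at hw
    rw [hw]
    exact Mg_nil_left v
  | case2 i k =>
    intro w hw _
    rw [sti, List.mem_singleton] at hw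
    rw [hw]
    exact Mg_nil_right _
  | case3 i k j l ih1 ih2 ih3 =>
    intro w hw hl
    rw [sti, List.mem_append, List.mem_append, List.mem_map, List.mem_map, List.mem_map] at hw
    rcases hw with (⟨w', hw', rfl⟩ | ⟨w', hw', rfl⟩) | ⟨w', hw', rfl⟩
    · refine Mg.left i (ih1 w' hw' ?_)
      simp only [List.length_cons] at hl ⊢
      omega
    · refine Mg.right j (ih2 w' hw' ?_)
      simp only [List.length_cons] at hl ⊢
      omega
    · exfalso
      have := sti_length k l w' hw'
      simp only [List.length_cons] at hl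
      omega

lemma append_mem_sti (u v : List ℕ) : u ++ v ∈ sti u v := by
  induction u with
  | nil => rw [sti]; exact List.mem_singleton.2 rfl
  | cons a u ih =>
    cases v with
    | nil => rw [sti]; simp
    | cons b v =>
      rw [sti, List.mem_append, List.mem_append]
      left; left
      exact List.mem_map.2 ⟨_, ih, rfl⟩

lemma flatten_mem_stil (L : List (List ℕ)) : L.flatten ∈ stil L := by
  induction L with
  | nil => simp [stil]
  | cons l L ih =>
    rw [stil, List.mem_flatMap]
    exact ⟨_, ih, append_mem_sti l L.flatten⟩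

lemma stil_length (L : List (List ℕ)) : ∀ w ∈ stil L, w.length ≤ L.flatten.length := by
  induction L with
  | nil => intro w hw; simp only [stil, List.mem_singleton] at hw; rw [hw]; simp
  | cons l L ih =>
    intro w hw
    rw [stil, List.mem_flatMap] at hw
    obtain ⟨u, hu, hw⟩ := hw
    have h1 := sti_length l u w hw
    have h2 := ih u hu
    rw [List.flatten_cons, List.length_append]
    omega

/-- sorted lists of Lyndon words -/
def Srt (L : List (List ℕ)) : Prop := L.Pairwise (fun a b => Le b a) ∧ ∀ a ∈ L, Lyn a

lemma Srt.tail {l : List ℕ} {L : List (List ℕ)} (h : Srt (l :: L)) : Srt L :=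
  ⟨(List.pairwise_cons.1 h.1).2, fun a ha => h.2 a (List.mem_cons_of_mem _ ha)⟩

lemma InM_flatten {l : List ℕ} : ∀ {L : List (List ℕ)}, (∀ a ∈ L, a ≠ [] ∧ Le a l) → InM l L.flatten
  | [], _ => InM.nil
  | a :: L, h => by
    rw [List.flatten_cons]
    exact InM.cons (h a List.mem_cons_self).1 (h a List.mem_cons_self).2
      (InM_flatten fun b hb => h b (List.mem_cons_of_mem _ hb))

lemma Srt.inM {l : List ℕ} {L : List (List ℕ)} (h : Srt (l :: L)) : InM l L.flatten :=
  InM_flatten fun a ha => ⟨(h.2 a (List.mem_cons_of_mem _ ha)).1, (List.pairwise_cons.1 h.1).1 a ha⟩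

/-- **the longest words in a product of Lyndon words** -/
theorem stil_max (L : List (List ℕ)) : Srt L → ∀ w ∈ stil L, w.length = L.flatten.length → Wle w L.flatten := by
  induction L with
  | nil => intro _ w hw _; simp only [stil, List.mem_singleton] at hw; rw [hw]; exact Wle.refl _
  | cons l L ih =>
    intro hL w hw hlen
    rw [stil, List.mem_flatMap] at hw
    obtain ⟨u, hu, hw⟩ := hw
    have h1 := sti_length l u w hw
    have h2 := stil_length L u hu
    rw [List.flatten_cons, List.length_append] at hlen
    have h3 : u.length = L.flatten.length := by omega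
    have h4 := ih hL.tail u hu h3
    obtain ⟨w', h5, h6⟩ := Mg_mono' (sti_merge l u w hw (by omega)) h4
    have hl := hL.2 l List.mem_cons_self
    rw [List.flatten_cons]
    exact h6.trans (merge_le hl _ l L.flatten le_rfl hl.1 List.suffix_rfl hL.inM w' h5)

/-- a suffix of `l` is not a prefix of a concatenation of words `≤ l'` if `l'` is a proper prefix of `l` -/
lemma no_suffix {l l' y : List ℕ} (hl : Lyn l) (hl' : Lyn l') (hy : y ≠ []) (h : l = l' ++ y) : ∀ (k : ℕ) (z X X0 : List ℕ),
    z.length ≤ k → z ≠ [] → z <:+ l → InM l' X → X = z ++ X0 → False := by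
  have hyl : y <:+ l := ⟨l', h.symm⟩
  intro k
  induction k with
  | zero => intro z X X0 hz hz0; exact fun _ _ _ => hz0 (List.length_eq_zero_iff.1 (by omega))
  | succ k ih =>
    intro z X X0 hzk hz hzl hX hXz
    by_cases hzl' : z = l
    · rw [hzl', h, List.append_assoc] at hXz
      refine ih y (y ++ X0) X0 ?_ hy hyl (hX.drop hl' hXz) rfl
      have h1 : z.length = l'.length + y.length := by rw [hzl', h, List.length_append]
      have h2 : l'.length ≠ 0 := fun h3 => hl'.1 (List.length_eq_zero_iff.1 h3)
      omega
    · have h1 := hl.2 z hz hzl hzl'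
      have h2 := S_append (x := []) (y := X0) h1
      rw [List.append_nil, ← hXz, h] at h2
      rcases S_append_left h2 with h3 | ⟨X', h3, h4⟩
      · exact hX.not_S hl' h3
      · -- `z` and `l'` are prefixes of `X`
        rw [h3] at hXz
        rcases List.append_eq_append_iff.1 hXz with ⟨z', h5, h6⟩ | ⟨c, h5, h6⟩
        · -- `z = l' ++ z'`
          by_cases hz' : z' = []
          · subst hz'
            rw [List.append_nil] at h5
            have h7 : l = z ++ y := by rw [h5, ← h]
            rw [h7] at h1
            exact S_prefix_left _ _ h1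
          · refine ih z' X' X0 ?_ hz' ?_ (hX.drop hl' h3) h6
            · have h8 : z.length = l'.length + z'.length := by rw [h5, List.length_append]
              have h9 : l'.length ≠ 0 := fun h3 => hl'.1 (List.length_eq_zero_iff.1 h3)
              omega
            · rw [h5] at hzl
              exact (List.suffix_append _ _).trans hzl
        · -- `l' = z ++ c`
          have h7 : l = z ++ (c ++ y) := by rw [h, h5, List.append_assoc]
          rw [h7] at h1
          exact S_prefix_left _ _ h1

lemma head_eq {l l' : List ℕ} {L L' : List (List ℕ)} (h : Srt (l :: L)) (h' : Srt (l' :: L'))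
    (he : l ++ L.flatten = l' ++ L'.flatten) : l = l' := by
  have hl := h.2 l List.mem_cons_self
  have hl' := h'.2 l' List.mem_cons_self
  rcases List.append_eq_append_iff.1 he with ⟨z, h5, h6⟩ | ⟨z, h5, h6⟩
  · by_cases hz : z = []
    · subst hz
      rw [h5, List.append_nil]
    · exfalso
      refine no_suffix hl' hl hz h5 z.length z L.flatten L'.flatten le_rfl hz ⟨l, h5.symm⟩ h.inM h6
  · by_cases hz : z = []
    · subst hz
      rw [h5, List.append_nil]
    · exfalso
      refine no_suffix hl hl' hz h5 z.length z L'.flatten L.flatten le_rfl hz ⟨l', h5.symm⟩ h'.inM h6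

/-- **uniqueness of the factorization** -/
theorem flatten_inj : ∀ (L L' : List (List ℕ)), Srt L → Srt L' → L.flatten = L'.flatten → L = L'
  | [], [], _, _, _ => rfl
  | [], l' :: L', _, h', he => by
    exfalso
    rw [List.flatten_cons, List.flatten_nil] at he
    exact (h'.2 l' List.mem_cons_self).1 (List.append_eq_nil_iff.1 he.symm).1
  | l :: L, [], h, _, he => by
    exfalso
    rw [List.flatten_cons, List.flatten_nil] at he
    exact (h.2 l List.mem_cons_self).1 (List.append_eq_nil_iff.1 he).1
  | l :: L, l' :: L', h, h', he => by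
    rw [List.flatten_cons, List.flatten_cons] at he
    have h1 := head_eq h h' he
    subst h1
    rw [flatten_inj L L' h.tail h'.tail (List.append_cancel_left he)]

lemma Le_total : ∀ a b : List ℕ, Le a b ∨ Le b a
  | [], b => Or.inl (Or.inl List.nil_prefix)
  | a :: u, [] => Or.inr (Or.inl List.nil_prefix)
  | a :: u, b :: v => by
    rcases lt_trichotomy a b with h | h | h
    · exact Or.inr (Or.inr (S_cons.2 (Or.inl h)))
    · subst h
      rcases Le_total u v with h | h
      · left
        rcases h with ⟨z, rfl⟩ | h
        · exact Or.inl ⟨z, rfl⟩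
        · exact Or.inr ((S_cons_same a).2 h)
      · right
        rcases h with ⟨z, rfl⟩ | h
        · exact Or.inl ⟨z, rfl⟩
        · exact Or.inr ((S_cons_same a).2 h)
    · exact Or.inl (Or.inr (S_cons.2 (Or.inl h)))

lemma Le_trans {a b c : List ℕ} (h : Le a b) (h' : Le b c) : Le a c := by
  rcases h with ⟨y, rfl⟩ | h
  · rcases h' with ⟨z, rfl⟩ | h'
    · exact Or.inl ⟨y ++ z, by rw [List.append_assoc]⟩
    · rcases S_append_left h' with h1 | ⟨X, rfl, -⟩
      · exact Or.inr h1
      · exact Or.inl ⟨X, rfl⟩
  · rcases h' with ⟨z, rfl⟩ | h'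
    · have h1 := S_append (x := []) (y := z) h
      rw [List.append_nil] at h1
      exact Or.inr h1
    · exact Or.inr (S_trans h h')

lemma insert_sorted (a : List ℕ) : ∀ L : List (List ℕ), L.Pairwise (fun a b => Le b a) →
    ∃ L' : List (List ℕ), L'.Perm (a :: L) ∧ L'.Pairwise (fun a b => Le b a)
  | [], _ => ⟨[a], List.Perm.refl _, List.pairwise_singleton _ _⟩
  | b :: L, h => by
    rw [List.pairwise_cons] at h
    rcases Le_total b a with hb | hb
    · refine ⟨a :: b :: L, List.Perm.refl _, List.pairwise_cons.2 ⟨fun c hc => ?_, List.pairwise_cons.2 h⟩⟩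
      rcases List.mem_cons.1 hc with rfl | hc
      · exact hb
      · exact Le_trans (h.1 c hc) hb
    · obtain ⟨L', h1, h2⟩ := insert_sorted a L h.2
      refine ⟨b :: L', (h1.cons b).trans (List.Perm.swap a b L), List.pairwise_cons.2 ⟨fun c hc => ?_, h2⟩⟩
      rcases List.mem_cons.1 (h1.mem_iff.1 hc) with rfl | hc
      · exact hb
      · exact h.1 c hc

lemma exists_sorted : ∀ L : List (List ℕ), ∃ L' : List (List ℕ), L'.Perm L ∧ L'.Pairwise (fun a b => Le b a)
  | [] => ⟨[], List.Perm.refl _, List.Pairwise.nil⟩
  | a :: L => by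
    obtain ⟨L₁, h1, h2⟩ := exists_sorted L
    obtain ⟨L₂, h3, h4⟩ := insert_sorted a L₁ h2
    exact ⟨L₂, h3.trans (h1.cons a), h4⟩

/-- the order of the words: first the length -/
def T (w w' : List ℕ) : Prop := w.length < w'.length ∨ (w.length = w'.length ∧ S w w')

lemma T_irrefl (w : List ℕ) : ¬ T w w := by
  rintro (h | ⟨-, h⟩)
  · omega
  · exact S_irrefl w h

lemma T_trans {u v w : List ℕ} (h : T u v) (h' : T v w) : T u w := by
  rcases h with h | ⟨h, h1⟩ <;> rcases h' with h' | ⟨h', h1'⟩
  · left; omega
  · left; omega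
  · left; omega
  · exact Or.inr ⟨h.trans h', S_trans h1 h1'⟩

lemma S_total : ∀ {u v : List ℕ}, u.length = v.length → u = v ∨ S u v ∨ S v u
  | [], [], _ => Or.inl rfl
  | [], _ :: _, h => by simp at h
  | _ :: _, [], h => by simp at h
  | a :: u, b :: v, h => by
    rcases lt_trichotomy a b with h1 | h1 | h1
    · exact Or.inr (Or.inr (S_cons.2 (Or.inl h1)))
    · subst h1
      rcases S_total (by simpa using h : u.length = v.length) with h2 | h2 | h2
      · exact Or.inl (by rw [h2])
      · exact Or.inr (Or.inl ((S_cons_same a).2 h2))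
      · exact Or.inr (Or.inr ((S_cons_same a).2 h2))
    · exact Or.inr (Or.inl (S_cons.2 (Or.inl h1)))

lemma T_total {u v : List ℕ} (h : u ≠ v) : T u v ∨ T v u := by
  rcases lt_trichotomy u.length v.length with h1 | h1 | h1
  · exact Or.inl (Or.inl h1)
  · rcases S_total h1 with h2 | h2 | h2
    · exact absurd h2 h
    · exact Or.inl (Or.inr ⟨h1, h2⟩)
    · exact Or.inr (Or.inr ⟨h1.symm, h2⟩)
  · exact Or.inr (Or.inl h1)

lemma exists_max (A : Finset (List ℕ)) (hA : A.Nonempty) : ∃ w ∈ A, ∀ w' ∈ A, w' ≠ w → T w' w := by
  classical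
  induction hA using Finset.Nonempty.cons_induction with
  | singleton a => exact ⟨a, Finset.mem_singleton_self a, fun w' hw' h => absurd (Finset.mem_singleton.1 hw') h⟩
  | cons a A ha _ ih =>
    obtain ⟨w, hw, h⟩ := ih
    have hne : a ≠ w := fun h1 => ha (h1 ▸ hw)
    rcases T_total hne with h1 | h1
    · refine ⟨w, Finset.mem_cons_of_mem hw, fun w' hw' hne' => ?_⟩
      rcases Finset.mem_cons.1 hw' with rfl | hw'
      · exact h1
      · exact h w' hw' hne'
    · refine ⟨a, Finset.mem_cons_self a A, fun w' hw' hne' => ?_⟩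
      rcases Finset.mem_cons.1 hw' with rfl | hw'
      · exact absurd rfl hne'
      · by_cases h2 : w' = w
        · rw [h2]; exact h1
        · exact T_trans (h w' hw' h2) h1

/-- all words of a product of Lyndon words are at most the concatenation -/
lemma stil_T {L : List (List ℕ)} (hL : Srt L) {w : List ℕ} (hw : w ∈ stil L) : w = L.flatten ∨ T w L.flatten := by
  have h1 := stil_length L w hw
  rcases h1.lt_or_eq with h1 | h1
  · exact Or.inr (Or.inl h1)
  · rcases stil_max L hL w hw h1 with h2 | h2
    · exact Or.inl h2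
    · exact Or.inr (Or.inr ⟨h1, h2⟩)

end Pool.Agent.U553.LY
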