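import Pool.Agent.U553.LY.B
import Pool.Agent.U553.DL.Zeta

/-! Lyndon words are algebraically independent in the quasi-shuffle algebra (helper553). -/

set_option autoImplicit false

namespace Pool.Agent.U553.LY

open Pool.Agent.Y760.ZF Pool.Agent.X90.DC Pool.Agent.U553.DL Finset

/-- the part of `Zt` which depends on the first number -/
noncomputable def hd (B : List ℂ) (a : List ℕ → ℂ) : List ℕ → Polynomial ℂ
  | [] => 0
  | s :: v => Polynomial.C (a (s :: v) * Zt B v) * Polynomial.X ^ s

theorem Zt_indep (n : ℕ) : ∀ (Q : Finset (List ℕ)) (a : List ℕ → ℂ), (∀ w ∈ Q, w.length ≤ n) →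
    (∀ B : List ℂ, ∑ w ∈ Q, a w * Zt B w = 0) → ∀ w ∈ Q, a w = 0 := by
  classical
  induction n with
  | zero =>
    intro Q a hQ h w hw
    have hQ' : Q = {[]} := by
      ext v
      rw [mem_singleton]
      constructor
      · intro hv
        exact List.length_eq_zero_iff.1 (by have := hQ v hv; omega)
      · rintro rfl
        have h1 : w = [] := List.length_eq_zero_iff.1 (by have := hQ w hw; omega)
        rwa [h1] at hw
    have h1 := h []
    rw [hQ', sum_singleton, Zt_nil, mul_one] at h1
    rw [hQ', mem_singleton] at hw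
    rw [hw, h1]
  | succ n ih =>
    intro Q a hQ h w hw
    have hpoly : ∀ B : List ℂ, ∑ w ∈ Q, hd B a w = 0 := by
      intro B
      refine Polynomial.funext fun c => ?_
      rw [Polynomial.eval_finsetSum, Polynomial.eval_zero]
      have h1 : ∀ w ∈ Q, (hd B a w).eval c = a w * Zt (c :: B) w - a w * Zt B w := by
        intro w _
        cases w with
        | nil => rw [hd, Zt_nil, Zt_nil]; simp
        | cons s v =>
          rw [hd, Zt]
          simp only [Polynomial.eval_mul, Polynomial.eval_C, Polynomial.eval_pow, Polynomial.eval_X]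
          ring
      rw [sum_congr rfl h1, sum_sub_distrib, h, h, sub_zero]
    have hcons : ∀ (s : ℕ) (v : List ℕ), s :: v ∈ Q → a (s :: v) = 0 := by
      intro s v hv
      set Qs : Finset (List ℕ) := (Q.image List.tail).filter fun v => s :: v ∈ Q with hQs
      have hvQ : v ∈ Qs := mem_filter.2 ⟨mem_image.2 ⟨s :: v, hv, rfl⟩, hv⟩
      refine ih Qs (fun v => a (s :: v)) (fun u hu => ?_) (fun B => ?_) v hvQ
      · have := hQ _ (mem_filter.1 hu).2
        simp only [List.length_cons] at this
        omega
      · have h2 := congrArg (fun q => Polynomial.coeff q s) (hpoly B)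
        simp only [Polynomial.finsetSum_coeff, Polynomial.coeff_zero] at h2
        have h3 : ∑ w ∈ Q, (hd B a w).coeff s = ∑ w ∈ Qs.image (s :: ·), (hd B a w).coeff s := by
          symm
          refine sum_subset ?_ ?_
          · intro u hu
            obtain ⟨u', hu', rfl⟩ := mem_image.1 hu
            exact (mem_filter.1 hu').2
          · intro u hu hu'
            cases u with
            | nil => rw [hd, Polynomial.coeff_zero]
            | cons s' u =>
              rw [hd, Polynomial.coeff_C_mul, Polynomial.coeff_X_pow]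
              rw [if_neg, mul_zero]
              rintro rfl
              exact hu' (mem_image.2 ⟨u, mem_filter.2 ⟨mem_image.2 ⟨s :: u, hu, rfl⟩, hu⟩, rfl⟩)
        rw [h3, sum_image (fun x _ y _ hxy => by simpa using hxy)] at h2
        rw [← h2]
        refine sum_congr rfl fun u _ => ?_
        rw [hd, Polynomial.coeff_C_mul, Polynomial.coeff_X_pow, if_pos rfl, mul_one]
    cases w with
    | nil =>
      have h1 := h []
      rw [← add_sum_erase _ _ hw, Zt_nil, mul_one, sum_eq_zero, add_zero] at h1
      · exact h1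
      · intro u hu
        rw [mem_erase] at hu
        cases u with
        | nil => exact absurd rfl hu.1
        | cons s v => rw [hcons s v hu.2, zero_mul]
    | cons s v => exact hcons s v hw

/-- the multiset of the words of a monomial -/
noncomputable def ms {n : ℕ} (W : Fin n → List ℕ) (m : Fin n →₀ ℕ) : Multiset (List ℕ) := ∑ i, m i • {W i}

lemma ms_inj {n : ℕ} {W : Fin n → List ℕ} (hW : Function.Injective W) {m m' : Fin n →₀ ℕ} (h : ms W m = ms W m') :
    m = m' := by
  classical
  ext j
  have h1 : ∀ m : Fin n →₀ ℕ, (ms W m).count (W j) = m j := by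
    intro m
    rw [ms, Multiset.count_sum', sum_eq_single j]
    · rw [Multiset.count_nsmul, Multiset.count_singleton_self, mul_one]
    · intro i _ hij
      rw [Multiset.count_nsmul, Multiset.count_singleton, if_neg, mul_zero]
      exact fun h => hij (hW h.symm)
    · intro h; exact absurd (mem_univ j) h
  rw [← h1 m, ← h1 m', h]

lemma ms_mem {n : ℕ} {W : Fin n → List ℕ} {m : Fin n →₀ ℕ} {w : List ℕ} (h : w ∈ ms W m) : ∃ i, w = W i := by
  rw [ms, Multiset.mem_sum] at h
  obtain ⟨i, -, h⟩ := h
  exact ⟨i, Multiset.mem_singleton.1 (Multiset.mem_of_mem_nsmul h)⟩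

lemma ms_prod {n : ℕ} (W : Fin n → List ℕ) (m : Fin n →₀ ℕ) (Z : List ℕ → ℂ) :
    ((ms W m).map Z).prod = ∏ i, Z (W i) ^ m i := by
  rw [ms]
  have h1 : (∑ i, m i • ({W i} : Multiset (List ℕ))).map Z = ∑ i, (m i • ({W i} : Multiset (List ℕ))).map Z :=
    map_sum (Multiset.mapAddMonoidHom Z) _ _
  rw [h1, Multiset.prod_sum]
  refine prod_congr rfl fun i _ => ?_
  rw [Multiset.map_nsmul, Multiset.prod_nsmul, Multiset.map_singleton, Multiset.prod_singleton]

/-- the product over a list is the sum over the stuffle product -/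
lemma prod_stil (B : List ℂ) (L : List (List ℕ)) : (L.map (Zt B)).prod = ((stil L).map (Zt B)).sum := by
  induction L with
  | nil => simp [stil, Zt_nil]
  | cons l L ih =>
    rw [List.map_cons, List.prod_cons, ih, stil]
    generalize stil L = M
    induction M with
    | nil => simp
    | cons u M ihM =>
      rw [List.map_cons, List.sum_cons, mul_add, ihM, List.flatMap_cons, List.map_append, List.sum_append, Zt_mul]

/-- **Lyndon words are algebraically independent** -/
theorem FI_lyn {n : ℕ} {W : Fin n → List ℕ} (hW : Function.Injective W) (hL : ∀ i, Lyn (W i)) : FI W := by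
  classical
  intro P hP
  by_contra hne
  have hsupp : P.support.Nonempty := Finset.nonempty_of_ne_empty fun h => hne (MvPolynomial.support_eq_empty.1 h)
  have hex : ∀ m : Fin n →₀ ℕ, ∃ L : List (List ℕ), (L : Multiset (List ℕ)) = ms W m ∧
      L.Pairwise (fun a b => Le b a) := by
    intro m
    obtain ⟨L, h1, h2⟩ := exists_sorted (ms W m).toList
    refine ⟨L, ?_, h2⟩
    rw [← Multiset.coe_toList (ms W m)]
    exact Multiset.coe_eq_coe.2 h1
  choose Ls hLs1 hLs2 using hex
  have hSrt : ∀ m, Srt (Ls m) := fun m => ⟨hLs2 m, fun a ha => by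
    have h1 : a ∈ ms W m := by rw [← hLs1 m]; exact ha
    obtain ⟨i, rfl⟩ := ms_mem h1
    exact hL i⟩
  have hinj : ∀ m m', (Ls m).flatten = (Ls m').flatten → m = m' := by
    intro m m' h
    have h1 := flatten_inj _ _ (hSrt m) (hSrt m') h
    refine ms_inj hW ?_
    rw [← hLs1, ← hLs1, h1]
  obtain ⟨w, hw, hmax⟩ := exists_max (P.support.image fun m => (Ls m).flatten) (hsupp.image _)
  obtain ⟨m₀, hm₀, rfl⟩ := mem_image.1 hw
  set Q : Finset (List ℕ) := P.support.biUnion fun m => (stil (Ls m)).toFinset with hQ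
  set a : List ℕ → ℂ := fun w => ∑ m ∈ P.support, ((P.coeff m : ℤ) : ℂ) * ((stil (Ls m)).count w : ℂ) with ha
  have hwQ : (Ls m₀).flatten ∈ Q :=
    mem_biUnion.2 ⟨m₀, hm₀, List.mem_toFinset.2 (flatten_mem_stil _)⟩
  have hsum : ∀ B : List ℂ, ∑ w ∈ Q, a w * Zt B w = 0 := by
    intro B
    have h1 := hP ℂ (Zt B) fun u v _ _ => Zt_mul B u v
    rw [MvPolynomial.aeval_def, MvPolynomial.eval₂_eq'] at h1
    rw [← h1]
    simp only [ha, sum_mul]
    rw [sum_comm]
    refine sum_congr rfl fun m hm => ?_
    rw [← ms_prod, ← hLs1, Multiset.map_coe, Multiset.prod_coe, prod_stil, Finset.sum_list_map_count]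
    rw [eq_intCast, mul_sum]
    symm
    have h2 : (stil (Ls m)).toFinset ⊆ Q := subset_biUnion_of_mem (fun m => (stil (Ls m)).toFinset) hm
    rw [← sum_subset h2]
    · refine sum_congr rfl fun w _ => ?_
      rw [nsmul_eq_mul, ← mul_assoc]
      congr!
    · intro w _ hw'
      rw [List.mem_toFinset] at hw'
      rw [List.count_eq_zero_of_not_mem hw', Nat.cast_zero, mul_zero, zero_mul]
  obtain ⟨k, hk⟩ : ∃ k, ∀ w ∈ Q, w.length ≤ k := ⟨Q.sup List.length, fun w hw => Finset.le_sup hw⟩
  have h0 := Zt_indep k Q a hk hsum _ hwQ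
  have h1 : a (Ls m₀).flatten = ((P.coeff m₀ : ℤ) : ℂ) * ((stil (Ls m₀)).count (Ls m₀).flatten : ℂ) := by
    rw [ha]
    simp only
    rw [sum_eq_single m₀]
    · intro m hm hmm
      have h2 : (Ls m).flatten ≠ (Ls m₀).flatten := fun h => hmm (hinj _ _ h)
      have h3 := hmax _ (mem_image.2 ⟨m, hm, rfl⟩) h2
      have h4 : (Ls m₀).flatten ∉ stil (Ls m) := by
        intro h5
        rcases stil_T (hSrt m) h5 with h6 | h6
        · exact h2 h6.symm
        · exact T_irrefl _ (T_trans h6 h3)
      rw [List.count_eq_zero_of_not_mem h4, Nat.cast_zero, mul_zero]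
    · intro h; exact absurd hm₀ h
  rw [h1] at h0
  rcases mul_eq_zero.1 h0 with h2 | h2
  · exact MvPolynomial.mem_support_iff.1 hm₀ (by exact_mod_cast h2)
  · have h3 : 0 < (stil (Ls m₀)).count (Ls m₀).flatten := List.count_pos_iff.2 (flatten_mem_stil _)
    have h4 : (stil (Ls m₀)).count (Ls m₀).flatten = 0 := by exact_mod_cast h2
    omega

end Pool.Agent.U553.LY
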