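import Pool.Agent.U553.LY.C
import Pool.Agent.U553.DL.Cor

/-! Deletion for Lyndon words (helper553). -/

set_option autoImplicit false

namespace Pool.Agent.U553.LY

open Finset Pool.Agent.U553.DL

/-- relations of the second sort of variables over the first -/
def IndG {σ ι : Type} (u : σ → ℂ) (f : ι → ℂ) (S : Finset ι) (D : ℕ) (H : ℝ) : Prop :=
  ∀ P : MvPolynomial (σ ⊕ S) ℤ, P.totalDegree ≤ D → (∀ m, |((P.coeff m : ℤ) : ℝ)| ≤ H) →
    MvPolynomial.aeval (Sum.elim u fun s : S => f s) P = 0 → ∀ y : S → ℂ, MvPolynomial.aeval (Sum.elim u y) P = 0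

lemma IndG_empty {σ ι : Type} (u : σ → ℂ) (f : ι → ℂ) (D : ℕ) (H : ℝ) : IndG u f ∅ D H := by
  intro P _ _ hP0 y
  rw [← hP0]
  congr 2
  funext i
  rcases i with i | i
  · rfl
  · exact absurd i.2 (Finset.notMem_empty _)

lemma IndG.mono {σ ι : Type} {u : σ → ℂ} {f : ι → ℂ} {S S' : Finset ι} {D D' : ℕ} {H H' : ℝ}
    (h : IndG u f S D H) (hS : S' ⊆ S) (hD : D' ≤ D) (hH : H' ≤ H) : IndG u f S' D' H' := by
  classical
  intro P hPD hPH hP0 y
  set g : σ ⊕ S' → σ ⊕ S := Sum.map id (fun s => ⟨s, hS s.2⟩) with hg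
  have hgi : Function.Injective g := by
    refine Function.injective_id.sumMap fun a b hab => ?_
    exact Subtype.ext (congrArg (fun s : S => (s : ι)) hab)
  have h1 := h (MvPolynomial.rename g P) ((MvPolynomial.totalDegree_rename_le _ _).trans (hPD.trans hD))
    (height_rename g hgi fun m => (hPH m).trans hH) (by
      rw [MvPolynomial.aeval_rename, ← hP0]
      congr 2
      funext i
      rcases i with i | i <;> rfl) (fun s => if hs : (s : ι) ∈ S' then y ⟨s, hs⟩ else 0)
  rw [MvPolynomial.aeval_rename] at h1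
  rw [← h1]
  congr 2
  funext i
  rcases i with i | i
  · rfl
  · simp [hg]

/-- a deletion property gives a bound for the number of disjoint exceptional sets -/
theorem disjointG {σ ι : Type} {u : σ → ℂ} {f : ι → ℂ} {D k t : ℕ} {U : Finset ι} {H : ℝ}
    (h : ∀ S : Finset ι, S.card ≤ k * (t + 1) → S ⊆ U →
      ∃ S' : Finset ι, S' ⊆ S ∧ S.card ≤ S'.card + t ∧ IndG u f S' D H)
    (E : Fin (t + 1) → Finset ι) (hE : ∀ i, (E i).card ≤ k ∧ E i ⊆ U)
    (hd : ∀ i j, i ≠ j → Disjoint (E i) (E j)) : ∃ i, IndG u f (E i) D H := by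
  classical
  obtain ⟨S', hS', hcard, hI⟩ := h (univ.biUnion E) (by
      refine card_biUnion_le.trans ?_
      refine (sum_le_sum fun i _ => (hE i).1).trans ?_
      rw [sum_const, card_univ, Fintype.card_fin, smul_eq_mul, Nat.mul_comm]) (fun s hs => by
      obtain ⟨i, -, hi⟩ := mem_biUnion.1 hs
      exact (hE i).2 hi)
  by_contra hcon
  push Not at hcon
  have h1 : ∀ i, ∃ s, s ∈ E i ∧ s ∉ S' := by
    intro i
    by_contra h2
    push Not at h2
    exact hcon i (hI.mono h2 le_rfl le_rfl)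
  choose g hg1 hg2 using h1
  have hinj : Function.Injective g := by
    intro i j hij
    by_contra hne
    exact (Finset.disjoint_left.1 (hd i j hne)) (hg1 i) (hij ▸ hg1 j)
  have h2 : univ.image g ⊆ univ.biUnion E \ S' := by
    intro s hs
    obtain ⟨i, -, rfl⟩ := mem_image.1 hs
    exact mem_sdiff.2 ⟨mem_biUnion.2 ⟨i, mem_univ _, hg1 i⟩, hg2 i⟩
  have h3 := card_le_card h2
  rw [card_image_of_injective _ hinj, card_univ, Fintype.card_fin, card_sdiff_of_subset hS'] at h3
  omega

/-- a bound for the number of disjoint exceptional sets gives a small set which meets all exceptional sets -/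
theorem hittingG {σ ι : Type} {u : σ → ℂ} {f : ι → ℂ} {D k t : ℕ} {U : Finset ι} {H : ℝ}
    (h : ∀ E : Fin (t + 1) → Finset ι, (∀ i, (E i).card ≤ k ∧ E i ⊆ U) →
      (∀ i j, i ≠ j → Disjoint (E i) (E j)) → ∃ i, IndG u f (E i) D H) :
    ∃ T : Finset ι, T.card ≤ k * t ∧ T ⊆ U ∧ ∀ S : Finset ι, S.card ≤ k → S ⊆ U → Disjoint S T →
      IndG u f S D H := by
  classical
  set X : Finset (Finset ι) := U.powerset.filter fun S => S.card ≤ k ∧ ¬ IndG u f S D H with hX
  set Y : Finset (Finset (Finset ι)) := X.powerset.filter fun F => ∀ a ∈ F, ∀ b ∈ F, a ≠ b → Disjoint a b with hY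
  obtain ⟨F, hF, hmax⟩ := Y.exists_max_image Finset.card ⟨∅, by
    rw [hY, mem_filter]
    exact ⟨mem_powerset.2 (empty_subset _), by simp⟩⟩
  rw [hY, mem_filter, mem_powerset] at hF
  have hFX : ∀ S ∈ F, S.card ≤ k ∧ ¬ IndG u f S D H ∧ S ⊆ U := by
    intro S hS
    have h1 := hF.1 hS
    rw [hX, mem_filter, mem_powerset] at h1
    exact ⟨h1.2.1, h1.2.2, h1.1⟩
  have hFt : F.card ≤ t := by
    by_contra hcon
    push Not at hcon
    obtain ⟨F', hF', hc⟩ := exists_subset_card_eq (show t + 1 ≤ F.card by omega)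
    have e := (Finset.equivFinOfCardEq hc).symm
    obtain ⟨i, hi⟩ := h (fun i => (e i : Finset ι)) (fun i => ⟨(hFX _ (hF' (e i).2)).1, (hFX _ (hF' (e i).2)).2.2⟩)
      (fun i j hij => hF.2 _ (hF' (e i).2) _ (hF' (e j).2) fun heq => hij (e.injective (Subtype.ext heq)))
    exact (hFX _ (hF' (e i).2)).2.1 hi
  refine ⟨F.biUnion id, ?_, fun s hs => ?_, fun S hSk hSU hS => ?_⟩
  · refine card_biUnion_le.trans ?_
    refine (sum_le_sum fun S hS => (hFX S hS).1).trans ?_
    rw [sum_const, smul_eq_mul, Nat.mul_comm]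
    exact Nat.mul_le_mul_left _ hFt
  · obtain ⟨S, hS, hs⟩ := mem_biUnion.1 hs
    exact (hFX S hS).2.2 hs
  · by_contra hI
    have hSF : ∀ a ∈ F, Disjoint S a := by
      intro a ha
      rw [Finset.disjoint_left]
      intro s hs hsa
      exact (Finset.disjoint_left.1 hS) hs (mem_biUnion.2 ⟨a, ha, hsa⟩)
    have hSne : S ≠ ∅ := by
      rintro rfl
      exact hI (IndG_empty u f D H)
    have hSnF : S ∉ F := fun hSF' => hSne (disjoint_self.1 (hSF S hSF'))
    have h1 := hmax (insert S F) (by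
      rw [hY, mem_filter, mem_powerset]
      refine ⟨insert_subset ?_ hF.1, ?_⟩
      · rw [hX, mem_filter, mem_powerset]
        exact ⟨hSU, hSk, hI⟩
      · intro a ha b hb hab
        rcases mem_insert.1 ha with ha1 | ha1
        · rcases mem_insert.1 hb with hb1 | hb1
          · exact absurd (ha1.trans hb1.symm) hab
          · rw [ha1]
            exact hSF b hb1
        · rcases mem_insert.1 hb with hb1 | hb1
          · rw [hb1]
            exact (hSF a ha1).symm
          · exact hF.2 a ha1 b hb1 hab)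
    rw [card_insert_of_notMem hSnF] at h1
    omega

/-- lexicographic comparison and the strong comparison -/
lemma S_of_lex {u v : List ℕ} (h : List.Lex (· > ·) u v) (hl : v.length ≤ u.length) : S u v := by
  induction h with
  | nil => simp at hl
  | cons h ih =>
    rw [S_cons_same]
    exact ih (by simpa using hl)
  | rel h => exact S_cons.2 (Or.inl h)

lemma lex_of_S : ∀ {u v : List ℕ}, S u v → List.Lex (· > ·) u v
  | [], _, h => absurd h (S_nil_left _)
  | _ :: _, [], h => absurd h (S_nil_right _)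
  | a :: u, b :: v, h => by
    rcases S_cons.1 h with h1 | ⟨rfl, h1⟩
    · exact List.Lex.rel h1
    · exact List.Lex.cons (lex_of_S h1)

lemma Lyn_iff (w : List ℕ) : Lyn w ↔ w ≠ [] ∧ ∀ u v : List ℕ, w = u ++ v → u ≠ [] → v ≠ [] → List.Lex (· > ·) w v := by
  constructor
  · rintro ⟨h1, h2⟩
    refine ⟨h1, fun u v h hu hv => lex_of_S (h2 v hv ⟨u, h.symm⟩ fun h3 => hu ?_)⟩
    have := congrArg List.length h
    rw [List.length_append, ← h3] at this
    exact List.length_eq_zero_iff.1 (by omega)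
  · rintro ⟨h1, h2⟩
    refine ⟨h1, fun s hs hsuf hne => ?_⟩
    obtain ⟨u, hu⟩ := hsuf
    refine S_of_lex (h2 u s hu.symm (fun h3 => hne ?_) hs) ?_
    · rw [h3, List.nil_append] at hu
      exact hu
    · rw [← hu, List.length_append]
      omega

end Pool.Agent.U553.LY
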