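import Pool.Agent.U553.LY.E
import Pool.Agent.U553.DL.Glob

/-! Lyndon factorization and the words which occur in the products (helper553). -/

set_option autoImplicit false

namespace Pool.Agent.U553.LY

open Pool.Agent.Y760.ZF Pool.Agent.X90.DC

lemma Lyn_single (a : ℕ) : Lyn [a] := by
  refine ⟨List.cons_ne_nil _ _, fun s hs hsuf hne => ?_⟩
  rcases List.suffix_cons_iff.1 hsuf with h | h
  · exact absurd h hne
  · exact absurd (List.suffix_nil.1 h) hs

/-- the concatenation of two Lyndon words in the right order -/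
lemma Lyn_append {a b : List ℕ} (ha : Lyn a) (hb : Lyn b) (h : Le a b) (h' : ¬ Le b a) : Lyn (a ++ b) := by
  have hab : S (a ++ b) b := by
    rcases h with ⟨c, rfl⟩ | h
    · have hc : c ≠ [] := by
        rintro rfl
        exact h' (by rw [List.append_nil]; exact Or.inl (List.prefix_refl _))
      have h1 := hb.2 c hc (List.suffix_append a c) (by
        intro h2
        have := congrArg List.length h2
        rw [List.length_append] at this
        exact ha.1 (List.length_eq_zero_iff.1 (by omega)))
      rw [S_append_same]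
      exact h1
    · have h1 := S_append (x := b) (y := []) h
      rwa [List.append_nil] at h1
  refine ⟨by simp [ha.1], fun s hs hsuf hne => ?_⟩
  obtain ⟨p, hp⟩ := hsuf
  rcases List.append_eq_append_iff.1 hp with ⟨c, hc1, hc2⟩ | ⟨c, hc1, hc2⟩
  · -- a = p ++ c, s = c ++ b
    subst hc2
    by_cases hc : c = []
    · subst hc
      exact hab
    · refine S_append _ _ (ha.2 c hc ⟨p, hc1.symm⟩ ?_)
      intro h2
      apply hne
      rw [h2]
  · -- p = a ++ c, b = c ++ s
    by_cases hsb : s = b
    · rw [hsb]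
      exact hab
    · exact S_trans hab (hb.2 s hs ⟨c, hc2.symm⟩ hsb)

lemma ins_lyn : ∀ (L : List (List ℕ)) (l : List ℕ), Lyn l → Srt L →
    ∃ L' : List (List ℕ), Srt L' ∧ L'.flatten = l ++ L.flatten
  | [], l, hl, _ => ⟨[l], ⟨List.pairwise_singleton _ _, by simpa using hl⟩, by simp⟩
  | b :: L, l, hl, h => by
    by_cases hb : Le b l
    · refine ⟨l :: b :: L, ⟨List.pairwise_cons.2 ⟨fun c hc => ?_, h.1⟩, fun c hc => ?_⟩, by simp⟩
      · rcases List.mem_cons.1 hc with rfl | hc
        · exact hb
        · exact Le_trans ((List.pairwise_cons.1 h.1).1 c hc) hb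
      · rcases List.mem_cons.1 hc with rfl | hc
        · exact hl
        · exact h.2 c hc
    · have h1 : Lyn (l ++ b) := Lyn_append hl (h.2 b List.mem_cons_self) ((Le_total l b).resolve_right hb) hb
      obtain ⟨L', h2, h3⟩ := ins_lyn L (l ++ b) h1 h.tail
      exact ⟨L', h2, by rw [h3, List.flatten_cons, List.append_assoc]⟩

/-- **Lyndon factorization** -/
theorem exists_cfl : ∀ w : List ℕ, ∃ L : List (List ℕ), Srt L ∧ L.flatten = w
  | [] => ⟨[], ⟨List.Pairwise.nil, by simp⟩, rfl⟩
  | a :: w => by
    obtain ⟨L, h1, h2⟩ := exists_cfl w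
    obtain ⟨L', h3, h4⟩ := ins_lyn L [a] (Lyn_single a) h1
    exact ⟨L', h3, by rw [h4, h2]; rfl⟩

lemma Mg_perm {u v w : List ℕ} (h : Mg u v w) : w.Perm (u ++ v) := by
  induction h with
  | nil => exact List.Perm.refl _
  | left a _ ih => exact ih.cons a
  | right b _ ih => exact (ih.cons b).trans List.perm_middle.symm

lemma stil_perm (L : List (List ℕ)) : ∀ w ∈ stil L, w.length = L.flatten.length → w.Perm L.flatten := by
  induction L with
  | nil => intro w hw _; simp only [stil, List.mem_singleton] at hw; rw [hw]; simp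
  | cons l L ih =>
    intro w hw hlen
    rw [stil, List.mem_flatMap] at hw
    obtain ⟨u, hu, hw⟩ := hw
    have h1 := sti_length l u w hw
    have h2 := stil_length L u hu
    rw [List.flatten_cons, List.length_append] at hlen
    rw [List.flatten_cons]
    exact (Mg_perm (sti_merge l u w hw (by omega))).trans ((ih u hu (by omega)).append_left l)

lemma sti_sum (u v : List ℕ) : ∀ w ∈ sti u v, w.sum = u.sum + v.sum := by
  induction u, v using sti.induct with
  | case1 v => intro w hw; rw [sti, List.mem_singleton] at hw; rw [hw]; simp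
  | case2 i k => intro w hw; rw [sti, List.mem_singleton] at hw; rw [hw]; simp
  | case3 i k j l ih1 ih2 ih3 =>
    intro w hw
    rw [sti, List.mem_append, List.mem_append, List.mem_map, List.mem_map, List.mem_map] at hw
    rcases hw with (⟨w', hw', rfl⟩ | ⟨w', hw', rfl⟩) | ⟨w', hw', rfl⟩
    · have := ih1 w' hw'; simp only [List.sum_cons] at this ⊢; omega
    · have := ih2 w' hw'; simp only [List.sum_cons] at this ⊢; omega
    · have := ih3 w' hw'; simp only [List.sum_cons] at this ⊢; omega

lemma stil_sum (L : List (List ℕ)) : ∀ w ∈ stil L, w.sum = L.flatten.sum := by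
  induction L with
  | nil => intro w hw; simp only [stil, List.mem_singleton] at hw; rw [hw]; simp
  | cons l L ih =>
    intro w hw
    rw [stil, List.mem_flatMap] at hw
    obtain ⟨u, hu, hw⟩ := hw
    rw [sti_sum l u w hw, ih u hu, List.flatten_cons, List.sum_append]

/-- nonempty words of length at most `ℓ`, with positive letters, first letter at least `N`, weight at most `Wt` -/
def Gd (N Wt ℓ : ℕ) (u : List ℕ) : Prop :=
  u ≠ [] ∧ u.length ≤ ℓ ∧ (∀ m ∈ u, 1 ≤ m) ∧ (∀ m ∈ u.head?, N ≤ m) ∧ u.sum ≤ Wt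

lemma Gd.cl {N Wt ℓ : ℕ} {u : List ℕ} (h : Gd N Wt ℓ u) {K : ℝ} (hK : (Wt : ℝ) ≤ K) : Cl N K ℓ u := by
  refine ⟨h.2.1, fun m hm => ⟨h.2.2.1 m hm, le_trans ?_ hK⟩, h.2.2.2.1⟩
  have := List.single_le_sum (fun _ _ => Nat.zero_le _) m hm
  exact_mod_cast this.trans h.2.2.2.2

lemma head_le {a b : List ℕ} (ha : a ≠ []) (hb : b ≠ []) (h : Le b a) : a.head ha ≤ b.head hb := by
  cases a with
  | nil => exact absurd rfl ha
  | cons x a =>
    cases b with
    | nil => exact absurd rfl hb
    | cons y b =>
      simp only [List.head_cons]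
      rcases h with ⟨c, hc⟩ | h
      · rw [List.cons_append, List.cons.injEq] at hc
        exact hc.1.symm.le
      · rcases S_cons.1 h with h | ⟨h, -⟩
        · exact h.le
        · exact h.symm.le

lemma factor_gd {N Wt ℓ : ℕ} {L : List (List ℕ)} (hL : Srt L) (h : Gd N Wt ℓ L.flatten) {l : List ℕ} (hl : l ∈ L) :
    Gd N Wt ℓ l := by
  obtain ⟨h1, h2, h3, h4, h5⟩ := h
  have hsub : l.Sublist L.flatten := List.sublist_flatten_of_mem hl
  refine ⟨(hL.2 l hl).1, (hsub.length_le).trans h2, fun m hm => h3 m (hsub.subset hm), fun m hm => ?_,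
    (hsub.sum_le_sum fun _ _ => Nat.zero_le _).trans h5⟩
  cases L with
  | nil => exact absurd hl List.not_mem_nil
  | cons l0 L =>
    have hl0 := (hL.2 l0 List.mem_cons_self).1
    have h6 : N ≤ l0.head hl0 := by
      refine h4 _ ?_
      cases l0 with
      | nil => exact absurd rfl hl0
      | cons x l0 => simp
    have hlne := (hL.2 l hl).1
    have h7 : l0.head hl0 ≤ l.head hlne := by
      rcases List.mem_cons.1 hl with rfl | hl
      · exact le_rfl
      · exact head_le hl0 hlne ((List.pairwise_cons.1 hL.1).1 l hl)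
    have h8 : m = l.head hlne := by
      cases l with
      | nil => exact absurd rfl hlne
      | cons x l => simpa using hm.symm
    omega

lemma term_gd {N Wt ℓ : ℕ} {L : List (List ℕ)} (hL : Srt L) (h : Gd N Wt ℓ L.flatten) {w : List ℕ} (hw : w ∈ stil L) :
    Gd N Wt ℓ w := by
  have h6 : ∀ u ∈ L, Cl N (Wt : ℝ) ℓ u := fun u hu => (factor_gd hL h hu).cl le_rfl
  have h7 := stil_Cl (Nat.cast_nonneg _) L h6 w hw
  have h8 := stil_sum L w hw
  refine ⟨?_, (stil_length L w hw).trans h.2.1, fun m hm => (h7.2.1 m hm).1, h7.2.2, by rw [h8]; exact h.2.2.2.2⟩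
  rintro rfl
  rw [List.sum_nil] at h8
  obtain ⟨h1, -, h3, -⟩ := h
  generalize L.flatten = v at h1 h3 h8
  cases v with
  | nil => exact h1 rfl
  | cons x v =>
    have := h3 x List.mem_cons_self
    rw [List.sum_cons] at h8
    omega

/-- the smaller permutations -/
noncomputable def sm (u : List ℕ) : Finset (List ℕ) := by
  classical exact u.permutations.toFinset.filter fun v => S v u

lemma mem_sm {u v : List ℕ} : v ∈ sm u ↔ v.Perm u ∧ S v u := by
  classical
  rw [sm, Finset.mem_filter, List.mem_toFinset, List.mem_permutations]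

lemma sm_card (u : List ℕ) : (sm u).card ≤ u.length.factorial := by
  classical
  rw [sm]
  refine (Finset.card_filter_le _ _).trans ((List.toFinset_card_le _).trans ?_)
  rw [List.length_permutations]

/-- the rank -/
noncomputable def rk (ℓ : ℕ) (u : List ℕ) : ℕ := u.length * (ℓ.factorial + 1) + (sm u).card

lemma rk_lt {ℓ : ℕ} {u v : List ℕ} (hv : v.length ≤ ℓ) (h : u.length < v.length ∨ (u.Perm v ∧ S u v)) :
    rk ℓ u < rk ℓ v := by
  rcases h with h | ⟨h, h'⟩
  · have h1 := (sm_card u).trans (Nat.factorial_le (show u.length ≤ ℓ by omega))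
    rw [rk, rk]
    calc u.length * (ℓ.factorial + 1) + (sm u).card < (u.length + 1) * (ℓ.factorial + 1) := by
          rw [Nat.succ_mul]; omega
      _ ≤ v.length * (ℓ.factorial + 1) := Nat.mul_le_mul_right _ h
      _ ≤ _ := Nat.le_add_right _ _
  · have h1 : sm u ⊂ sm v := by
      rw [Finset.ssubset_iff_subset_ne]
      refine ⟨fun w hw => ?_, fun heq => ?_⟩
      · rw [mem_sm] at hw ⊢
        exact ⟨hw.1.trans h, S_trans hw.2 h'⟩
      · have h2 : u ∈ sm v := mem_sm.2 ⟨h, h'⟩
        rw [← heq, mem_sm] at h2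
        exact S_irrefl u h2.2
    have h2 := Finset.card_lt_card h1
    rw [rk, rk, h.length_eq]
    omega

/-- closed sets of words -/
def Closed (R : Finset (List ℕ)) : Prop :=
  ∀ u ∈ R, ¬ Lyn u → ∃ L : List (List ℕ), Srt L ∧ L.flatten = u ∧ (∀ l ∈ L, l ∈ R ∧ T l u) ∧
    ∀ w ∈ stil L, w ∈ R ∧ (w = u ∨ T w u)

/-- the bound for the number of words -/
def Bd (ℓ : ℕ) : ℕ → ℕ
  | 0 => 1
  | k + 1 => 1 + (ℓ + (3 ^ (ℓ * ℓ)) ^ ℓ) * Bd ℓ k

lemma Bd_mono (ℓ k : ℕ) : Bd ℓ k ≤ Bd ℓ (k + 1) ∨ ℓ = 0 := by
  rcases Nat.eq_zero_or_pos ℓ with h | h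
  · exact Or.inr h
  · left
    rw [Bd]
    have : 1 * Bd ℓ k ≤ (ℓ + (3 ^ (ℓ * ℓ)) ^ ℓ) * Bd ℓ k := Nat.mul_le_mul_right _ (by omega)
    omega

theorem exists_closed {N Wt ℓ : ℕ} : ∀ (k : ℕ) (u : List ℕ), Gd N Wt ℓ u → rk ℓ u < k →
    ∃ R : Finset (List ℕ), R.card ≤ Bd ℓ k ∧ u ∈ R ∧ (∀ v ∈ R, Gd N Wt ℓ v ∧ (v = u ∨ T v u)) ∧ Closed R := by
  classical
  intro k
  induction k with
  | zero => intro u _ h; omega
  | succ k ih =>
    intro u hu hk
    by_cases hLy : Lyn u
    · refine ⟨{u}, ?_, Finset.mem_singleton_self u, fun v hv => ?_, fun v hv h => ?_⟩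
      · rw [Finset.card_singleton, Bd]; omega
      · rw [Finset.mem_singleton] at hv; subst hv; exact ⟨hu, Or.inl rfl⟩
      · rw [Finset.mem_singleton] at hv; subst hv; exact absurd hLy h
    · obtain ⟨L, hL, hLf⟩ := exists_cfl u
      have hgf : Gd N Wt ℓ L.flatten := by rw [hLf]; exact hu
      have hlen : ∀ l ∈ L, l.length < u.length := by
        intro l hl
        have hsub : l.Sublist L.flatten := List.sublist_flatten_of_mem hl
        have h1 := hsub.length_le
        rw [hLf] at h1
        rcases h1.lt_or_eq with h1 | h1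
        · exact h1
        · exfalso
          have h2 := hsub.eq_of_length (by rw [hLf]; exact h1)
          exact hLy (by rw [← hLf, ← h2]; exact hL.2 l hl)
      have hLlen : L.length ≤ ℓ := by
        have h1 : L.length ≤ L.flatten.length := by
          have h2 : ∀ l ∈ L, 1 ≤ l.length := fun l hl => List.length_pos_iff.2 (hL.2 l hl).1
          clear hgf hLf hlen hL
          induction L with
          | nil => simp
          | cons l L ih =>
            have h3 := h2 l List.mem_cons_self
            have h4 := ih fun l hl => h2 l (List.mem_cons_of_mem _ hl)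
            rw [List.flatten_cons, List.length_append, List.length_cons]
            omega
        rw [hLf] at h1
        exact h1.trans hu.2.1
      have hterm : ∀ w ∈ stil L, w = u ∨ T w u := by
        intro w hw
        rw [← hLf]
        exact stil_T hL hw
      have hrkl : ∀ l ∈ L, rk ℓ l < k := fun l hl => by
        have := rk_lt hu.2.1 (Or.inl (hlen l hl))
        omega
      have hrkw : ∀ w ∈ stil L, w ≠ u → rk ℓ w < k := fun w hw hne => by
        have h1 : rk ℓ w < rk ℓ u := by
          refine rk_lt hu.2.1 ?_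
          rcases (hterm w hw).resolve_left hne with h | ⟨h, h'⟩
          · exact Or.inl h
          · refine Or.inr ⟨?_, h'⟩
            have h2 := stil_perm L w hw (by rw [hLf]; exact h)
            rwa [hLf] at h2
        omega
      set A : Finset (List ℕ) := L.toFinset ∪ (stil L).toFinset.erase u with hA
      have hAk : ∀ v ∈ A, Gd N Wt ℓ v ∧ rk ℓ v < k ∧ T v u := by
        intro v hv
        rcases Finset.mem_union.1 hv with hv | hv
        · rw [List.mem_toFinset] at hv
          exact ⟨factor_gd hL hgf hv, hrkl v hv, Or.inl (hlen v hv)⟩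
        · rw [Finset.mem_erase, List.mem_toFinset] at hv
          exact ⟨term_gd hL hgf hv.2, hrkw v hv.2 hv.1, (hterm v hv.2).resolve_left hv.1⟩
      have hex : ∀ v : A, ∃ R : Finset (List ℕ), R.card ≤ Bd ℓ k ∧ (v : List ℕ) ∈ R ∧
          (∀ w ∈ R, Gd N Wt ℓ w ∧ (w = v ∨ T w v)) ∧ Closed R :=
        fun v => ih v (hAk v v.2).1 (hAk v v.2).2.1
      choose R hR1 hR2 hR3 hR4 using hex
      have hmemA : ∀ v (hv : v ∈ A), v ∈ Finset.univ.biUnion R := fun v hv =>
        Finset.mem_biUnion.2 ⟨⟨v, hv⟩, Finset.mem_univ _, hR2 ⟨v, hv⟩⟩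
      refine ⟨insert u (Finset.univ.biUnion R), ?_, Finset.mem_insert_self _ _, fun v hv => ?_, fun v hv hvL => ?_⟩
      · refine (Finset.card_insert_le _ _).trans ?_
        rw [Bd, add_comm 1]
        refine Nat.add_le_add_right ?_ 1
        refine Finset.card_biUnion_le.trans ((Finset.sum_le_sum fun v _ => hR1 v).trans ?_)
        rw [Finset.sum_const, Finset.card_univ, Fintype.card_coe, smul_eq_mul]
        refine Nat.mul_le_mul_right _ ?_
        refine (Finset.card_union_le _ _).trans (Nat.add_le_add ?_ ?_)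
        · exact (List.toFinset_card_le _).trans hLlen
        · refine (Finset.card_erase_le).trans ((List.toFinset_card_le _).trans ?_)
          refine (stil_count ℓ L fun v hv => (factor_gd hL hgf hv).2.1).2.trans ?_
          exact (Nat.pow_le_pow_left (Nat.pow_le_pow_right (by omega) (Nat.mul_le_mul_right _ hLlen)) _).trans
            (Nat.pow_le_pow_right (Nat.pos_of_ne_zero (by positivity)) hLlen)
      · rcases Finset.mem_insert.1 hv with rfl | hv
        · exact ⟨hu, Or.inl rfl⟩
        · obtain ⟨a, -, ha⟩ := Finset.mem_biUnion.1 hv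
          obtain ⟨h1, h2⟩ := hR3 a v ha
          refine ⟨h1, Or.inr ?_⟩
          rcases h2 with h2 | h2
          · rw [h2]; exact (hAk a a.2).2.2
          · exact T_trans h2 (hAk a a.2).2.2
      · by_cases hvu : v = u
        · subst hvu
          refine ⟨L, hL, hLf, fun l hl => ⟨?_, Or.inl (hlen l hl)⟩, fun w hw => ⟨?_, hterm w hw⟩⟩
          · exact Finset.mem_insert_of_mem (hmemA l (Finset.mem_union_left _ (List.mem_toFinset.2 hl)))
          · by_cases hwu : w = v
            · rw [hwu]; exact Finset.mem_insert_self _ _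
            · exact Finset.mem_insert_of_mem (hmemA w (Finset.mem_union_right _
                (Finset.mem_erase.2 ⟨hwu, List.mem_toFinset.2 hw⟩)))
        · obtain ⟨a, -, ha⟩ := Finset.mem_biUnion.1 ((Finset.mem_insert.1 hv).resolve_left hvu)
          obtain ⟨L', h1, h2, h3, h4⟩ := hR4 a v ha hvL
          have hsub : R a ⊆ insert u (Finset.univ.biUnion R) :=
            (Finset.subset_biUnion_of_mem R (Finset.mem_univ a)).trans (Finset.subset_insert _ _)
          exact ⟨L', h1, h2, fun l hl => ⟨hsub (h3 l hl).1, (h3 l hl).2⟩, fun w hw => ⟨hsub (h4 w hw).1, (h4 w hw).2⟩⟩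

end Pool.Agent.U553.LY
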