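import Pool.Agent.U553.LY.F
import Pool.Agent.U553.DL.Ord2

/-! Words of smaller depth: at most `t` exceptional Lyndon words over `t` constants (helper553). -/

set_option autoImplicit false

namespace Pool.Agent.U553.LY

open Finset Pool.Agent.U553.DL
open Pool.Agent.Y760.ZG (mz)
open Pool.Agent.Y760.ZF (Cl stil sti mz_prod stil_count)
open Pool.Agent.X90.DB (Ad)

lemma prod_monomial {τ : Type} (v : List ℕ → τ) (L : List (List ℕ)) :
    ∃ e : τ →₀ ℕ, (L.map fun w => (MvPolynomial.X (v w) : MvPolynomial τ ℤ)).prod = MvPolynomial.monomial e 1 ∧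
      e.degree = L.length := by
  induction L with
  | nil => exact ⟨0, by simp, by simp⟩
  | cons l L ih =>
    obtain ⟨e, he, hd⟩ := ih
    refine ⟨Finsupp.single (v l) 1 + e, ?_, ?_⟩
    · rw [List.map_cons, List.prod_cons, he, MvPolynomial.X, MvPolynomial.monomial_mul, one_mul]
    · rw [map_add, hd, Finsupp.degree_single, List.length_cons, add_comm]

lemma sum_bounds {τ : Type} (v : List ℕ → τ) (L : List (List ℕ)) :
    (L.map fun w => (MvPolynomial.X (v w) : MvPolynomial τ ℤ)).sum.totalDegree ≤ 1 ∧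
    ∀ m, |(((L.map fun w => (MvPolynomial.X (v w) : MvPolynomial τ ℤ)).sum.coeff m : ℤ) : ℝ)| ≤ L.length := by
  classical
  induction L with
  | nil => simp
  | cons l L ih =>
    rw [List.map_cons, List.sum_cons]
    refine ⟨(MvPolynomial.totalDegree_add _ _).trans (max_le ?_ ih.1), fun m => ?_⟩
    · rw [MvPolynomial.totalDegree_X]
    · rw [MvPolynomial.coeff_add, Int.cast_add]
      refine (abs_add_le _ _).trans ?_
      rw [List.length_cons]
      push_cast
      have h1 : |(((MvPolynomial.X (v l) : MvPolynomial τ ℤ).coeff m : ℤ) : ℝ)| ≤ 1 := by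
        rw [MvPolynomial.coeff_X]
        split_ifs <;> simp
      linarith [ih.2 m]

/-- the relation given by a product of Lyndon words -/
lemma dep_step {σ : Type} (u : σ → ℂ) {v : List ℕ} {L : List (List ℕ)} {Λ : Finset (List ℕ)} (hLf : L.flatten = v)
    (hl : ∀ l ∈ L, l ∈ Λ) (hw : ∀ w ∈ stil L, w = v ∨ w ∈ Λ) (hv : v ∉ Λ)
    (hprod : (L.map mz).prod = ((stil L).map mz).sum) {D : ℕ} {H : ℝ} (hD : L.length ≤ D) (hD1 : 1 ≤ D)
    (hH : 1 + ((stil L).length : ℝ) ≤ H) : DepX u (fun w => ((mz w : ℝ) : ℂ)) Λ v D H := by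
  classical
  set g : List ℕ → Option (σ ⊕ Λ) := fun w => if h : w ∈ Λ then some (Sum.inr ⟨w, h⟩) else none with hg
  set P : MvPolynomial (Option (σ ⊕ Λ)) ℤ := (L.map fun w => MvPolynomial.X (g w)).prod -
    ((stil L).map fun w => MvPolynomial.X (g w)).sum with hP
  obtain ⟨e, he, hed⟩ := prod_monomial g L
  obtain ⟨hs1, hs2⟩ := sum_bounds g (stil L)
  have hval : ∀ y : ℂ, MvPolynomial.aeval (fun o : Option (σ ⊕ Λ) => o.elim y (Sum.elim u fun k : Λ => ((mz k : ℝ) : ℂ))) P =
      (((L.map mz).prod : ℝ) : ℂ) - ((stil L).map fun w => if w ∈ Λ then ((mz w : ℝ) : ℂ) else y).sum := by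
    intro y
    have h1 : ∀ w, MvPolynomial.aeval (fun o : Option (σ ⊕ Λ) => o.elim y (Sum.elim u fun k : Λ => ((mz k : ℝ) : ℂ)))
        (MvPolynomial.X (g w) : MvPolynomial (Option (σ ⊕ Λ)) ℤ) = if w ∈ Λ then ((mz w : ℝ) : ℂ) else y := by
      intro w
      rw [MvPolynomial.aeval_X, hg]
      simp only
      split_ifs with h
      · rfl
      · rfl
    rw [hP, map_sub, map_list_prod, map_list_sum, List.map_map, List.map_map]
    congr 1
    · have h2 : L.map (⇑(MvPolynomial.aeval fun o : Option (σ ⊕ Λ) => o.elim y (Sum.elim u fun k : Λ => ((mz k : ℝ) : ℂ))) ∘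
          fun w => (MvPolynomial.X (g w) : MvPolynomial (Option (σ ⊕ Λ)) ℤ)) = L.map fun w => ((mz w : ℝ) : ℂ) := by
        refine List.map_congr_left fun w hw => ?_
        rw [Function.comp_apply, h1, if_pos (hl w hw)]
      rw [h2]
      have h3 : (((L.map mz).prod : ℝ) : ℂ) = (L.map fun w => ((mz w : ℝ) : ℂ)).prod := by
        have := map_list_prod Complex.ofRealHom (L.map mz)
        rw [List.map_map] at this
        exact this
      rw [h3]
    · congr 1
      refine List.map_congr_left fun w _ => ?_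
      rw [Function.comp_apply, h1]
  have hsum : ∀ c : ℂ, ((stil L).map fun w => if w ∈ Λ then ((mz w : ℝ) : ℂ) else ((mz v : ℝ) : ℂ) + c).sum =
      ((((stil L).map mz).sum : ℝ) : ℂ) + ((stil L).countP (fun w => w ∉ Λ) : ℕ) * c := by
    intro c
    clear hs1 hs2 hP hprod hH
    revert hw
    generalize stil L = M
    intro hw
    induction M with
    | nil => simp
    | cons w M ih =>
      have h1 := ih fun w' hw' => hw w' (List.mem_cons_of_mem _ hw')
      rw [List.map_cons, List.sum_cons, h1, List.map_cons, List.sum_cons, List.countP_cons]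
      rcases hw w List.mem_cons_self with h2 | h2
      · subst h2
        simp only [hv, not_false_eq_true, decide_true, if_true, if_false]
        push_cast
        ring
      · simp only [h2, not_true_eq_false, decide_false, if_true, if_false, Bool.false_eq_true]
        push_cast
        ring
  refine ⟨P, ?_, fun m => ?_, ?_, ((mz v : ℝ) : ℂ) + 1, ?_⟩
  · rw [hP]
    refine (MvPolynomial.totalDegree_sub _ _).trans (max_le ?_ (hs1.trans hD1))
    rw [he]
    refine (MvPolynomial.totalDegree_monomial_le _ _).trans ?_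
    refine le_trans (le_of_eq ?_) hD
    rw [← hed]
    rfl
  · rw [hP, MvPolynomial.coeff_sub, Int.cast_sub]
    refine (abs_sub _ _).trans (le_trans (add_le_add ?_ (hs2 m)) hH)
    rw [he, MvPolynomial.coeff_monomial]
    split_ifs <;> simp
  · have h1 := hsum 0
    rw [add_zero, mul_zero, add_zero] at h1
    rw [hval, h1, hprod, sub_self]
  · rw [hval, hsum 1, hprod, mul_one]
    have h1 : 0 < (stil L).countP (fun w => w ∉ Λ) := by
      rw [List.countP_pos_iff]
      exact ⟨v, by rw [← hLf]; exact flatten_mem_stil L, by simpa using hv⟩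
    intro h2
    have h3 : (((stil L).countP (fun w => w ∉ Λ) : ℕ) : ℂ) = 0 := by linear_combination -h2
    have h4 : (stil L).countP (fun w => w ∉ Λ) = 0 := by exact_mod_cast h3
    omega

lemma DepX.mono' {σ ι : Type} {u : σ → ℂ} {f : ι → ℂ} {Λ : Finset ι} {w : ι} {D D' : ℕ} {H H' : ℝ}
    (h : DepX u f Λ w D H) (hD : D ≤ D') (hH : H ≤ H') : DepX u f Λ w D' H' := by
  obtain ⟨P, h1, h2, h3, h4⟩ := h
  exact ⟨P, h1.trans hD, fun m => (h2 m).trans hH, h3, h4⟩

/-- from sets to enumerated families -/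
lemma dep_of {ι : Type} [LinearOrder ι] {a t D : ℕ} {α : Fin a → ℂ} {x : Fin t → ℂ} {f : ι → ℂ} {S : Finset ι}
    {H : ℝ} (w : ι) (hwS : w ∈ S) (h : DepX (Sum.elim α x) f (S.filter (· < w)) w D H) :
    Dep α x (fun i => f (S.orderIsoOfFin rfl i)) ((S.orderIsoOfFin rfl).symm ⟨w, hwS⟩) D H := by
  classical
  set e := S.orderIsoOfFin (rfl : S.card = S.card) with he
  obtain ⟨P, h1, h2, h3, y, h4⟩ := h
  have hw : ((e (e.symm ⟨w, hwS⟩) : S) : ι) = w := by rw [OrderIso.apply_symm_apply]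
  have hk : ∀ k : (S.filter (· < w) : Finset ι), (k : ι) ∈ S ∧ (k : ι) < w := fun k => mem_filter.1 k.2
  set g : Option ((Fin a ⊕ Fin t) ⊕ (S.filter (· < w) : Finset ι)) →
      Option ((Fin a ⊕ Fin t) ⊕ {k : Fin S.card // k < e.symm ⟨w, hwS⟩}) :=
    Option.map (Sum.map id fun k => ⟨e.symm ⟨k, (hk k).1⟩, by
      rw [OrderIso.lt_iff_lt]
      exact (hk k).2⟩) with hg
  have hgi : Function.Injective g := by
    refine Option.map_injective (Function.injective_id.sumMap fun k k' hkk => ?_)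
    have h5 := e.symm.injective (Subtype.ext_iff.1 hkk)
    exact Subtype.ext (congrArg (fun s : S => (s : ι)) h5)
  have hcomp : ∀ z : ℂ, (fun o : Option ((Fin a ⊕ Fin t) ⊕ {k : Fin S.card // k < e.symm ⟨w, hwS⟩}) =>
      o.elim z (Sum.elim (Sum.elim α x) fun k => f (e (k : Fin S.card)))) ∘ g =
      fun o => o.elim z (Sum.elim (Sum.elim α x) fun k : (S.filter (· < w) : Finset ι) => f k) := by
    intro z
    funext o
    rcases o with _ | (o | o)
    · rfl
    · rfl
    · simp only [hg, Function.comp_apply, Option.map_some, Sum.map_inr, Option.elim_some, Sum.elim_inr]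
      rw [OrderIso.apply_symm_apply]
  refine ⟨MvPolynomial.rename g P, (MvPolynomial.totalDegree_rename_le _ _).trans h1, height_rename g hgi h2, ?_, y, ?_⟩
  · have h5 := h3
    rw [← hcomp, ← MvPolynomial.aeval_rename] at h5
    simp only [hw]
    exact h5
  · have h5 := h4
    rw [← hcomp, ← MvPolynomial.aeval_rename] at h5
    exact h5

/-- tuples of multiple zeta values, Lyndon words at the places in `B` -/
def Vl (n : ℕ) (B : Finset (Fin n)) (κ ℓ : ℕ) : Set (ℕ × (Fin n → ℂ)) :=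
  {p | ∃ s : Fin n → List ℕ, Function.Injective s ∧
    (∀ i ∈ B, Lyn (s i) ∧ Cl p.1 ((κ : ℝ) * p.1) ℓ (s i) ∧ Ad (s i)) ∧ p.2 = fun i => ((mz (s i) : ℝ) : ℂ)}

lemma Vl_pure (n : ℕ) (B : Finset (Fin n)) (κ ℓ D : ℕ) (C : ℝ) : ∃ N0 : ℕ, ∀ p ∈ Vl n B κ ℓ, N0 ≤ p.1 →
    ∀ P : MvPolynomial (Fin B.card) ℤ, P.totalDegree ≤ D → (∀ m, |((P.coeff m : ℤ) : ℝ)| ≤ C ^ p.1) →
      MvPolynomial.aeval (fun i => p.2 (B.equivFin.symm i)) P = 0 → P = 0 := by
  obtain ⟨N0, h0⟩ := Vw_pure B.card ℓ κ D C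
  refine ⟨N0, fun p hp hN P hPD hPC hP0 => ?_⟩
  obtain ⟨s, hs, hsB, hps⟩ := hp
  refine h0 (p.1, fun i => ((mz (s (B.equivFin.symm i)) : ℝ) : ℂ)) ⟨fun i => s (B.equivFin.symm i),
    fun i => (hsB _ (B.equivFin.symm i).2).2.1, fun i => (hsB _ (B.equivFin.symm i).2).2.2, ?_, rfl⟩ hN P hPD hPC ?_
  · exact FI_lyn (fun i j hij => B.equivFin.symm.injective (Subtype.ext (hs hij)))
      fun i => (hsB _ (B.equivFin.symm i).2).1
  · rw [← hP0, hps]

end Pool.Agent.U553.LY
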