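import Pool.Agent.U553.LY.G

/-! At most `t` exceptional Lyndon words over `t` constants and values at arbitrary smaller words (helper553). -/

set_option autoImplicit false

namespace Pool.Agent.U553.LY

open Finset Pool.Agent.U553.DL
open Pool.Agent.Y760.ZG (mz)
open Pool.Agent.Y760.ZF (Cl stil sti mz_prod stil_count)
open Pool.Agent.X90.DB (Ad)

instance T_sto : IsStrictTotalOrder (List ℕ) T where
  irrefl := T_irrefl
  trans _ _ _ := T_trans
  trichotomous a b h h' := by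
    by_contra hne
    rcases T_total hne with h1 | h1
    · exact h h1
    · exact h' h1

/-- the linear order of the words -/
@[reducible] noncomputable def TO : LinearOrder (List ℕ) := by
  classical
  exact linearOrderOfSTO T

lemma TO_lt (a b : List ℕ) : TO.lt a b ↔ T a b := Iff.rfl

/-- the bound for the rank -/
def Kl (ℓ : ℕ) : ℕ := (ℓ + 1) * (ℓ.factorial + 1)

lemma rk_lt_Kl {ℓ : ℕ} {u : List ℕ} (h : u.length ≤ ℓ) : rk ℓ u < Kl ℓ := by
  have h1 := (sm_card u).trans (Nat.factorial_le h)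
  have h2 := Nat.mul_le_mul_right (ℓ.factorial + 1) h
  rw [rk, Kl, Nat.succ_mul]
  omega

lemma gd_of_InR {N κ ℓ : ℕ} {u : List ℕ} (h0 : u ≠ []) (h : InR N (κ * N) ℓ u) : Gd N (ℓ * (κ * N)) ℓ u := by
  obtain ⟨h1, h2, h3⟩ := h
  refine ⟨h0, h1, fun m hm => (h2 m hm).1, h3, ?_⟩
  have h4 : u.sum ≤ u.length * (κ * N) := List.sum_le_card_nsmul u (κ * N) (fun m hm => (h2 m hm).2)
  exact h4.trans (Nat.mul_le_mul_right _ h1)

lemma Gd.ad {N Wt ℓ : ℕ} {u : List ℕ} (h : Gd N Wt ℓ u) (hN : 2 ≤ N) : Ad u := by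
  obtain ⟨h1, -, h3, h4, -⟩ := h
  cases u with
  | nil => exact absurd rfl h1
  | cons b u =>
    have h6 := h4 b rfl
    exact ⟨by omega, fun c hc => h3 c (List.mem_cons_of_mem _ hc)⟩

/-- from sets to enumerated families -/
theorem assemble {ι : Type} [LinearOrder ι] {a t D : ℕ} {H : ℝ} {α : Fin a → ℂ} {x : Fin t → ℂ} {f : ι → ℂ}
    {S E₁ : Finset ι} (Bp : ι → Prop) (hES : E₁ ⊆ S) (hEB : ∀ v ∈ E₁, Bp v)
    (h0 : ∀ (s : Fin S.card → ι) (B : Finset (Fin S.card)), Function.Injective s → (∀ i, s i ∈ S) →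
      (∀ i ∈ B, Bp (s i)) → ∀ E' : Finset (Fin S.card), E' ⊆ B →
      (∀ i, i ∉ B ∨ i ∈ E' → Dep α x (fun i => f (s i)) i D H) → E'.card ≤ t)
    (hdep : ∀ v ∈ S, ¬ Bp v ∨ v ∈ E₁ → ∃ Λ : Finset ι, Λ ⊆ S ∧ (∀ k ∈ Λ, k < v) ∧ DepX (Sum.elim α x) f Λ v D H) :
    E₁.card ≤ t := by
  classical
  set e := S.orderIsoOfFin (rfl : S.card = S.card) with he
  set B : Finset (Fin S.card) := univ.filter fun i => Bp (e i : ι) with hB
  set E' : Finset (Fin S.card) := univ.filter fun i => (e i : ι) ∈ E₁ with hE'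
  have hE'B : E' ⊆ B := by
    intro i hi
    rw [hE', mem_filter] at hi
    rw [hB, mem_filter]
    exact ⟨mem_univ _, hEB _ hi.2⟩
  have key := h0 (fun i => (e i : ι)) B (fun i j hij => e.injective (Subtype.ext hij)) (fun i => (e i).2)
    (fun i hi => (mem_filter.1 hi).2) E' hE'B (fun i hi => by
      have h1 : (e i : ι) ∈ S := (e i).2
      obtain ⟨Λ, h5, h6, h7⟩ := hdep (e i) h1 (by
        rcases hi with hi | hi
        · left
          intro h3
          exact hi (mem_filter.2 ⟨mem_univ _, h3⟩)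
        · right
          exact (mem_filter.1 hi).2)
      have h2 : DepX (Sum.elim α x) f (S.filter (· < (e i : ι))) (e i) D H :=
        h7.mono fun k hk => mem_filter.2 ⟨h5 hk, h6 k hk⟩
      have h3 := dep_of (f := f) (e i : ι) h1 h2
      have h4 : (S.orderIsoOfFin rfl).symm ⟨(e i : ι), h1⟩ = i := by
        show e.symm (e i) = i
        exact e.symm_apply_apply i
      rw [h4] at h3
      exact h3)
  have hcard : E'.card = E₁.card := by
    have h1 : E'.image (fun i => (e i : ι)) = E₁ := by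
      ext v
      rw [mem_image]
      constructor
      · rintro ⟨i, hi, rfl⟩
        exact (mem_filter.1 hi).2
      · intro hv
        have hvS : v ∈ S := hES hv
        refine ⟨e.symm ⟨v, hvS⟩, mem_filter.2 ⟨mem_univ _, ?_⟩, ?_⟩
        · rw [e.apply_symm_apply]
          exact hv
        · rw [e.apply_symm_apply]
    rw [← h1, card_image_of_injective _ fun i j hij => e.injective (Subtype.ext hij)]
  omega

/-- **at most `t` Lyndon words are exceptional** -/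
theorem depthT (m ℓ κ a t D : ℕ) (C : ℝ) (α : Fin a → ℂ) (hα : ∀ i, IsAlgebraic ℤ (α i)) :
    ∃ N₀ : ℕ, ∀ N : ℕ, N₀ ≤ N → ∀ (x : Fin t → ℂ) (E : Finset (List ℕ)), (∀ w ∈ E, Lyn w ∧ InR N (κ * N) ℓ w ∧
      ∃ Λ : Finset (List ℕ), Λ.card ≤ m ∧ (∀ k ∈ Λ, k ≠ [] ∧ InR N (κ * N) ℓ k ∧ T k w) ∧
        DepX (Sum.elim α x) (fun w => ((mz w : ℝ) : ℂ)) Λ w D (C ^ N)) → E.card ≤ t := by
  classical
  set D' := D + ℓ + 1 with hD'
  set C' := |C| + 1 + (1 + ((3 ^ (ℓ * ℓ)) ^ ℓ : ℕ)) with hC'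
  have hC'1 : (1 : ℝ) ≤ C' := by
    rw [hC']
    have h1 : (0 : ℝ) ≤ (((3 ^ (ℓ * ℓ)) ^ ℓ : ℕ) : ℝ) := Nat.cast_nonneg _
    have h2 := abs_nonneg C
    linarith
  set M := (t + 1) + (t + 1) * (m * Bd ℓ (Kl ℓ)) with hM
  choose N0 h0 using fun (n : ℕ) (B : Finset (Fin n)) =>
    ordered' B (Vl n B (ℓ * κ) ℓ) (fun D C => Vl_pure n B (ℓ * κ) ℓ D C) a t D' C' α hα
  refine ⟨2 + (ℓ * ℓ + 1) + ∑ n ∈ range (M + 1), ∑ B : Finset (Fin n), N0 n B, fun N hN x E hE => ?_⟩
  by_contra hcon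
  push Not at hcon
  obtain ⟨E₁, hE₁, hE₁c⟩ := exists_subset_card_eq (show t + 1 ≤ E.card by omega)
  have hE₁' : ∀ w : E₁, Lyn w ∧ InR N (κ * N) ℓ w ∧
      ∃ Λ : Finset (List ℕ), Λ.card ≤ m ∧ (∀ k ∈ Λ, k ≠ [] ∧ InR N (κ * N) ℓ k ∧ T k w) ∧
        DepX (Sum.elim α x) (fun w => ((mz w : ℝ) : ℂ)) Λ w D (C ^ N) := fun w => hE w (hE₁ w.2)
  choose hLy hIn Λ hΛc hΛ hΛd using hE₁'
  have hR : ∀ (w : E₁) (k : Λ w), ∃ R : Finset (List ℕ), R.card ≤ Bd ℓ (Kl ℓ) ∧ (k : List ℕ) ∈ R ∧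
      (∀ v ∈ R, Gd N (ℓ * (κ * N)) ℓ v ∧ (v = k ∨ T v k)) ∧ Closed R := by
    intro w k
    have h1 := hΛ w k k.2
    exact exists_closed (Kl ℓ) k (gd_of_InR h1.1 h1.2.1) (rk_lt_Kl h1.2.1.1)
  choose R hR1 hR2 hR3 hR4 using hR
  set S : Finset (List ℕ) := E₁ ∪ univ.biUnion fun w : E₁ => univ.biUnion (R w) with hS
  have hRS : ∀ (w : E₁) (k : Λ w), R w k ⊆ S := fun w k =>
    (subset_biUnion_of_mem (R w) (mem_univ k)).trans ((subset_biUnion_of_mem
      (fun w : E₁ => univ.biUnion (R w)) (mem_univ w)).trans subset_union_right)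
  have hScard : S.card ≤ M := by
    refine (card_union_le _ _).trans (Nat.add_le_add hE₁c.le ?_)
    refine card_biUnion_le.trans ((sum_le_sum (g := fun _ => m * Bd ℓ (Kl ℓ)) fun w _ => ?_).trans ?_)
    · refine card_biUnion_le.trans ((sum_le_sum fun k _ => hR1 w k).trans ?_)
      rw [sum_const, card_univ, Fintype.card_coe, smul_eq_mul]
      exact Nat.mul_le_mul_right _ (hΛc w)
    · rw [sum_const, card_univ, Fintype.card_coe, smul_eq_mul, hE₁c]
  have hSG : ∀ v ∈ S, Gd N (ℓ * (κ * N)) ℓ v := by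
    intro v hv
    rcases mem_union.1 hv with hv | hv
    · exact gd_of_InR (hLy ⟨v, hv⟩).1 (hIn ⟨v, hv⟩)
    · obtain ⟨w, -, hv⟩ := mem_biUnion.1 hv
      obtain ⟨k, -, hv⟩ := mem_biUnion.1 hv
      exact (hR3 w k v hv).1
  have hN2 : 2 ≤ N := by omega
  have hNℓ : ℓ * ℓ + 1 ≤ N := by omega
  have hN1 : 1 ≤ N := by omega
  have hCN : C ^ N ≤ C' ^ N := by
    refine (le_abs_self _).trans ?_
    rw [abs_pow]
    refine pow_le_pow_left₀ (abs_nonneg _) ?_ _
    have h1 : (0 : ℝ) ≤ (((3 ^ (ℓ * ℓ)) ^ ℓ : ℕ) : ℝ) := Nat.cast_nonneg _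
    rw [hC']
    linarith
  -- the relations
  have hdep : ∀ v ∈ S, v ∉ S.filter (fun w => Lyn w) ∨ v ∈ E₁ →
      DepX (Sum.elim α x) (fun w => ((mz w : ℝ) : ℂ)) (S.filter (fun k => T k v)) v D' (C' ^ N) := by
    intro v hv hv'
    by_cases hvE : v ∈ E₁
    · refine DepX.mono' ((hΛd ⟨v, hvE⟩).mono fun k hk => mem_filter.2 ⟨?_, (hΛ ⟨v, hvE⟩ k hk).2.2⟩) (by omega) hCN
      exact hRS ⟨v, hvE⟩ ⟨k, hk⟩ (hR2 ⟨v, hvE⟩ ⟨k, hk⟩)
    · have hvL : ¬ Lyn v := by
        intro h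
        rcases hv' with h1 | h1
        · exact h1 (mem_filter.2 ⟨hv, h⟩)
        · exact hvE h1
      have hv2 := (mem_union.1 hv).resolve_left hvE
      obtain ⟨w, -, hv2⟩ := mem_biUnion.1 hv2
      obtain ⟨k, -, hv2⟩ := mem_biUnion.1 hv2
      obtain ⟨L, hL1, hL2, hL3, hL4⟩ := hR4 w k v hv2 hvL
      have hvG := hSG v hv
      have hLG : ∀ l ∈ L, Gd N (ℓ * (κ * N)) ℓ l := fun l hl => factor_gd hL1 (by rw [hL2]; exact hvG) hl
      have hLlen : L.length ≤ ℓ := by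
        have h1 : L.length ≤ L.flatten.length := by
          have h2 : ∀ l ∈ L, 1 ≤ l.length := fun l hl => List.length_pos_iff.2 (hL1.2 l hl).1
          clear hL1 hL2 hL3 hL4 hLG
          induction L with
          | nil => simp
          | cons l L ih =>
            have h3 := h2 l List.mem_cons_self
            have h4 := ih fun l hl => h2 l (List.mem_cons_of_mem _ hl)
            rw [List.flatten_cons, List.length_append, List.length_cons]
            omega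
        rw [hL2] at h1
        exact h1.trans hvG.2.1
      refine dep_step (Sum.elim α x) hL2 (fun l hl => mem_filter.2 ⟨hRS w k (hL3 l hl).1, (hL3 l hl).2⟩)
        (fun w' hw' => ?_) (fun h => T_irrefl v (mem_filter.1 h).2) ?_ (hLlen.trans (by omega)) (by omega) ?_
      · rcases (hL4 w' hw').2 with h1 | h1
        · exact Or.inl h1
        · exact Or.inr (mem_filter.2 ⟨hRS w k (hL4 w' hw').1, h1⟩)
      · refine mz_prod (n := N) (K := ((ℓ * (κ * N) : ℕ) : ℝ)) (Nat.cast_nonneg _) (r := ℓ) L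
          (fun l hl => (hLG l hl).cl le_rfl) ?_
        exact le_trans (Nat.add_le_add_right (Nat.mul_le_mul_right _ hLlen) 1) hNℓ
      · have h1 : (stil L).length ≤ (3 ^ (ℓ * ℓ)) ^ ℓ := by
          refine (stil_count ℓ L fun v hv => (hLG v hv).2.1).2.trans ?_
          exact (Nat.pow_le_pow_left (Nat.pow_le_pow_right (by omega) (Nat.mul_le_mul_right _ hLlen)) _).trans
            (Nat.pow_le_pow_right (Nat.pos_of_ne_zero (by positivity)) hLlen)
        have h2 : ((stil L).length : ℝ) ≤ (((3 ^ (ℓ * ℓ)) ^ ℓ : ℕ) : ℝ) := by exact_mod_cast h1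
        refine le_trans ?_ (le_self_pow₀ hC'1 (by omega : N ≠ 0))
        rw [hC']
        have h3 := abs_nonneg C
        linarith
  have hcast : ((ℓ * (κ * N) : ℕ) : ℝ) ≤ ((ℓ * κ : ℕ) : ℝ) * (N : ℝ) := by
    push_cast
    rw [mul_assoc]
  have key := @assemble (List ℕ) TO a t D' (C' ^ N) α x (fun w => ((mz w : ℝ) : ℂ)) S E₁ Lyn
    subset_union_left (fun v hv => hLy ⟨v, hv⟩) (fun s B hs hsS hsB E' hE'B hE' => by
      have hNB : N0 S.card B ≤ N := by
        have h1 : N0 S.card B ≤ ∑ B : Finset (Fin S.card), N0 S.card B :=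
          Finset.single_le_sum (f := fun B => N0 S.card B) (fun _ _ => Nat.zero_le _) (mem_univ B)
        have h2 : ∑ B : Finset (Fin S.card), N0 S.card B ≤ ∑ n ∈ range (M + 1), ∑ B : Finset (Fin n), N0 n B :=
          Finset.single_le_sum (f := fun n => ∑ B : Finset (Fin n), N0 n B) (fun _ _ => Nat.zero_le _)
            (mem_range.2 (by omega))
        omega
      exact h0 S.card B (N, fun i => ((mz (s i) : ℝ) : ℂ)) ⟨s, hs, fun i hi => by
        have h1 := hSG _ (hsS i)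
        exact ⟨hsB i hi, h1.cl hcast, h1.ad hN2⟩, rfl⟩ hNB x E' hE'B hE')
    (fun v hv hv' => ⟨S.filter (fun k => T k v), filter_subset _ _, fun k hk => (mem_filter.1 hk).2,
      hdep v hv (hv'.imp (fun h h' => h (mem_filter.1 h').2) id)⟩)
  omega

end Pool.Agent.U553.LY
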