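import Pool.Agent.U553.LY.H

/-! Words of smaller weight: at most `t` exceptional Lyndon words over `t` constants (helper553). -/

set_option autoImplicit false

namespace Pool.Agent.U553.LY

open Finset Pool.Agent.U553.DL
open Pool.Agent.Y760.ZG (mz)
open Pool.Agent.Y760.ZF (Cl stil sti mz_prod stil_count)
open Pool.Agent.X90.DB (Ad)

/-- the order of the words: first the weight, then the length -/
def TW (w w' : List ℕ) : Prop := w.sum < w'.sum ∨ (w.sum = w'.sum ∧ T w w')

lemma TW_irrefl (w : List ℕ) : ¬ TW w w := by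
  rintro (h | ⟨-, h⟩)
  · omega
  · exact T_irrefl w h

lemma TW_trans {u v w : List ℕ} (h : TW u v) (h' : TW v w) : TW u w := by
  rcases h with h | ⟨h, h1⟩ <;> rcases h' with h' | ⟨h', h1'⟩
  · left; omega
  · left; omega
  · left; omega
  · exact Or.inr ⟨h.trans h', T_trans h1 h1'⟩

lemma TW_total {u v : List ℕ} (h : u ≠ v) : TW u v ∨ TW v u := by
  rcases lt_trichotomy u.sum v.sum with h1 | h1 | h1
  · exact Or.inl (Or.inl h1)
  · rcases T_total h with h2 | h2
    · exact Or.inl (Or.inr ⟨h1, h2⟩)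
    · exact Or.inr (Or.inr ⟨h1.symm, h2⟩)
  · exact Or.inr (Or.inl h1)

instance TW_sto : IsStrictTotalOrder (List ℕ) TW where
  irrefl := TW_irrefl
  trans _ _ _ := TW_trans
  trichotomous a b h h' := by
    by_contra hne
    rcases TW_total hne with h1 | h1
    · exact h h1
    · exact h' h1

/-- the linear order of the words -/
@[reducible] noncomputable def TWO : LinearOrder (List ℕ) := by
  classical
  exact linearOrderOfSTO TW

lemma sum_lt_of_sublist {l u : List ℕ} (h : l.Sublist u) (hlen : l.length < u.length) (hu : ∀ m ∈ u, 1 ≤ m) :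
    l.sum < u.sum := by
  induction h with
  | slnil => simp at hlen
  | @cons l₁ l₂ a h ih =>
    have h1 : l₁.sum ≤ l₂.sum := h.sum_le_sum fun _ _ => Nat.zero_le _
    have h2 := hu a List.mem_cons_self
    rw [List.sum_cons]
    omega
  | @cons_cons l₁ l₂ a h ih =>
    have h1 := ih (by simpa using hlen) fun m hm => hu m (List.mem_cons_of_mem _ hm)
    rw [List.sum_cons, List.sum_cons]
    omega

/-- closed sets of words -/
def ClosedW (R : Finset (List ℕ)) : Prop :=
  ∀ u ∈ R, ¬ Lyn u → ∃ L : List (List ℕ), Srt L ∧ L.flatten = u ∧ (∀ l ∈ L, l ∈ R ∧ TW l u) ∧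
    ∀ w ∈ stil L, w ∈ R ∧ (w = u ∨ TW w u)

open Pool.Agent.Y760.ZF in
theorem exists_closedW {N Wt ℓ : ℕ} : ∀ (k : ℕ) (u : List ℕ), Gd N Wt ℓ u → rk ℓ u < k →
    ∃ R : Finset (List ℕ), R.card ≤ Bd ℓ k ∧ u ∈ R ∧ (∀ v ∈ R, Gd N Wt ℓ v ∧ (v = u ∨ TW v u)) ∧ ClosedW R := by
  classical
  intro k
  induction k with
  | zero => intro u _ h; omega
  | succ k ih =>
    intro u hu hk
    by_cases hLy : Lyn u
    · refine ⟨{u}, ?_, Finset.mem_singleton_self u, fun v hv => ?_, fun v hv h => ?_⟩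
      · rw [Finset.card_singleton, Bd]; omega
      · rw [Finset.mem_singleton] at hv; subst hv; exact ⟨hu, Or.inl rfl⟩
      · rw [Finset.mem_singleton] at hv; subst hv; exact absurd hLy h
    · obtain ⟨L, hL, hLf⟩ := exists_cfl u
      have hgf : Gd N Wt ℓ L.flatten := by rw [hLf]; exact hu
      have hlen : ∀ l ∈ L, l.length < u.length := by
        intro l hl
        have hsub : l.Sublist L.flatten := List.sublist_flatten_of_mem hl
        have h1 := hsub.length_le
        rw [hLf] at h1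
        rcases h1.lt_or_eq with h1 | h1
        · exact h1
        · exfalso
          have h2 := hsub.eq_of_length (by rw [hLf]; exact h1)
          exact hLy (by rw [← hLf, ← h2]; exact hL.2 l hl)
      have hLlen : L.length ≤ ℓ := by
        have h1 : L.length ≤ L.flatten.length := by
          have h2 : ∀ l ∈ L, 1 ≤ l.length := fun l hl => List.length_pos_iff.2 (hL.2 l hl).1
          clear hgf hLf hlen hL
          induction L with
          | nil => simp
          | cons l L ih =>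
            have h3 := h2 l List.mem_cons_self
            have h4 := ih fun l hl => h2 l (List.mem_cons_of_mem _ hl)
            rw [List.flatten_cons, List.length_append, List.length_cons]
            omega
        rw [hLf] at h1
        exact h1.trans hu.2.1
      have hterm : ∀ w ∈ stil L, w = u ∨ T w u := by
        intro w hw
        rw [← hLf]
        exact stil_T hL hw
      have hrkl : ∀ l ∈ L, rk ℓ l < k := fun l hl => by
        have := rk_lt hu.2.1 (Or.inl (hlen l hl))
        omega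
      have hrkw : ∀ w ∈ stil L, w ≠ u → rk ℓ w < k := fun w hw hne => by
        have h1 : rk ℓ w < rk ℓ u := by
          refine rk_lt hu.2.1 ?_
          rcases (hterm w hw).resolve_left hne with h | ⟨h, h'⟩
          · exact Or.inl h
          · refine Or.inr ⟨?_, h'⟩
            have h2 := stil_perm L w hw (by rw [hLf]; exact h)
            rwa [hLf] at h2
        omega
      have hsuml : ∀ l ∈ L, l.sum < u.sum := by
        intro l hl
        have hsub : l.Sublist L.flatten := List.sublist_flatten_of_mem hl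
        rw [hLf] at hsub
        exact sum_lt_of_sublist hsub (hlen l hl) hu.2.2.1
      have hsumw : ∀ w ∈ stil L, w.sum = u.sum := by
        intro w hw
        rw [stil_sum L w hw, hLf]
      set A : Finset (List ℕ) := L.toFinset ∪ (stil L).toFinset.erase u with hA
      have hAk : ∀ v ∈ A, Gd N Wt ℓ v ∧ rk ℓ v < k ∧ TW v u := by
        intro v hv
        rcases Finset.mem_union.1 hv with hv | hv
        · rw [List.mem_toFinset] at hv
          exact ⟨factor_gd hL hgf hv, hrkl v hv, Or.inl (hsuml v hv)⟩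
        · rw [Finset.mem_erase, List.mem_toFinset] at hv
          exact ⟨term_gd hL hgf hv.2, hrkw v hv.2 hv.1, Or.inr ⟨hsumw v hv.2, (hterm v hv.2).resolve_left hv.1⟩⟩
      have hex : ∀ v : A, ∃ R : Finset (List ℕ), R.card ≤ Bd ℓ k ∧ (v : List ℕ) ∈ R ∧
          (∀ w ∈ R, Gd N Wt ℓ w ∧ (w = v ∨ TW w v)) ∧ ClosedW R :=
        fun v => ih v (hAk v v.2).1 (hAk v v.2).2.1
      choose R hR1 hR2 hR3 hR4 using hex
      have hmemA : ∀ v (hv : v ∈ A), v ∈ Finset.univ.biUnion R := fun v hv =>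
        Finset.mem_biUnion.2 ⟨⟨v, hv⟩, Finset.mem_univ _, hR2 ⟨v, hv⟩⟩
      refine ⟨insert u (Finset.univ.biUnion R), ?_, Finset.mem_insert_self _ _, fun v hv => ?_, fun v hv hvL => ?_⟩
      · refine (Finset.card_insert_le _ _).trans ?_
        rw [Bd, add_comm 1]
        refine Nat.add_le_add_right ?_ 1
        refine Finset.card_biUnion_le.trans ((Finset.sum_le_sum fun v _ => hR1 v).trans ?_)
        rw [Finset.sum_const, Finset.card_univ, Fintype.card_coe, smul_eq_mul]
        refine Nat.mul_le_mul_right _ ?_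
        refine (Finset.card_union_le _ _).trans (Nat.add_le_add ?_ ?_)
        · exact (List.toFinset_card_le _).trans hLlen
        · refine (Finset.card_erase_le).trans ((List.toFinset_card_le _).trans ?_)
          refine (stil_count ℓ L fun v hv => (factor_gd hL hgf hv).2.1).2.trans ?_
          exact (Nat.pow_le_pow_left (Nat.pow_le_pow_right (by omega) (Nat.mul_le_mul_right _ hLlen)) _).trans
            (Nat.pow_le_pow_right (Nat.pos_of_ne_zero (by positivity)) hLlen)
      · rcases Finset.mem_insert.1 hv with rfl | hv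
        · exact ⟨hu, Or.inl rfl⟩
        · obtain ⟨a, -, ha⟩ := Finset.mem_biUnion.1 hv
          obtain ⟨h1, h2⟩ := hR3 a v ha
          refine ⟨h1, Or.inr ?_⟩
          rcases h2 with h2 | h2
          · rw [h2]; exact (hAk a a.2).2.2
          · exact TW_trans h2 (hAk a a.2).2.2
      · by_cases hvu : v = u
        · subst hvu
          refine ⟨L, hL, hLf, fun l hl => ⟨?_, Or.inl (hsuml l hl)⟩, fun w hw => ⟨?_, (hterm w hw).imp id
            fun h => Or.inr ⟨hsumw w hw, h⟩⟩⟩
          · exact Finset.mem_insert_of_mem (hmemA l (Finset.mem_union_left _ (List.mem_toFinset.2 hl)))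
          · by_cases hwu : w = v
            · rw [hwu]; exact Finset.mem_insert_self _ _
            · exact Finset.mem_insert_of_mem (hmemA w (Finset.mem_union_right _
                (Finset.mem_erase.2 ⟨hwu, List.mem_toFinset.2 hw⟩)))
        · obtain ⟨a, -, ha⟩ := Finset.mem_biUnion.1 ((Finset.mem_insert.1 hv).resolve_left hvu)
          obtain ⟨L', h1, h2, h3, h4⟩ := hR4 a v ha hvL
          have hsub : R a ⊆ insert u (Finset.univ.biUnion R) :=
            (Finset.subset_biUnion_of_mem R (Finset.mem_univ a)).trans (Finset.subset_insert _ _)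
          exact ⟨L', h1, h2, fun l hl => ⟨hsub (h3 l hl).1, (h3 l hl).2⟩, fun w hw => ⟨hsub (h4 w hw).1, (h4 w hw).2⟩⟩

/-- **at most `t` Lyndon words are exceptional** -/
theorem weightT (m ℓ κ a t D : ℕ) (C : ℝ) (α : Fin a → ℂ) (hα : ∀ i, IsAlgebraic ℤ (α i)) :
    ∃ N₀ : ℕ, ∀ N : ℕ, N₀ ≤ N → ∀ (x : Fin t → ℂ) (E : Finset (List ℕ)), (∀ w ∈ E, Lyn w ∧ InR N (κ * N) ℓ w ∧
      ∃ Λ : Finset (List ℕ), Λ.card ≤ m ∧ (∀ k ∈ Λ, k ≠ [] ∧ InR N (κ * N) ℓ k ∧ TW k w) ∧
        DepX (Sum.elim α x) (fun w => ((mz w : ℝ) : ℂ)) Λ w D (C ^ N)) → E.card ≤ t := by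
  classical
  set D' := D + ℓ + 1 with hD'
  set C' := |C| + 1 + (1 + ((3 ^ (ℓ * ℓ)) ^ ℓ : ℕ)) with hC'
  have hC'1 : (1 : ℝ) ≤ C' := by
    rw [hC']
    have h1 : (0 : ℝ) ≤ (((3 ^ (ℓ * ℓ)) ^ ℓ : ℕ) : ℝ) := Nat.cast_nonneg _
    have h2 := abs_nonneg C
    linarith
  set M := (t + 1) + (t + 1) * (m * Bd ℓ (Kl ℓ)) with hM
  choose N0 h0 using fun (n : ℕ) (B : Finset (Fin n)) =>
    ordered' B (Vl n B (ℓ * κ) ℓ) (fun D C => Vl_pure n B (ℓ * κ) ℓ D C) a t D' C' α hα
  refine ⟨2 + (ℓ * ℓ + 1) + ∑ n ∈ range (M + 1), ∑ B : Finset (Fin n), N0 n B, fun N hN x E hE => ?_⟩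
  by_contra hcon
  push Not at hcon
  obtain ⟨E₁, hE₁, hE₁c⟩ := exists_subset_card_eq (show t + 1 ≤ E.card by omega)
  have hE₁' : ∀ w : E₁, Lyn w ∧ InR N (κ * N) ℓ w ∧
      ∃ Λ : Finset (List ℕ), Λ.card ≤ m ∧ (∀ k ∈ Λ, k ≠ [] ∧ InR N (κ * N) ℓ k ∧ TW k w) ∧
        DepX (Sum.elim α x) (fun w => ((mz w : ℝ) : ℂ)) Λ w D (C ^ N) := fun w => hE w (hE₁ w.2)
  choose hLy hIn Λ hΛc hΛ hΛd using hE₁'
  have hR : ∀ (w : E₁) (k : Λ w), ∃ R : Finset (List ℕ), R.card ≤ Bd ℓ (Kl ℓ) ∧ (k : List ℕ) ∈ R ∧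
      (∀ v ∈ R, Gd N (ℓ * (κ * N)) ℓ v ∧ (v = k ∨ TW v k)) ∧ ClosedW R := by
    intro w k
    have h1 := hΛ w k k.2
    exact exists_closedW (Kl ℓ) k (gd_of_InR h1.1 h1.2.1) (rk_lt_Kl h1.2.1.1)
  choose R hR1 hR2 hR3 hR4 using hR
  set S : Finset (List ℕ) := E₁ ∪ univ.biUnion fun w : E₁ => univ.biUnion (R w) with hS
  have hRS : ∀ (w : E₁) (k : Λ w), R w k ⊆ S := fun w k =>
    (subset_biUnion_of_mem (R w) (mem_univ k)).trans ((subset_biUnion_of_mem
      (fun w : E₁ => univ.biUnion (R w)) (mem_univ w)).trans subset_union_right)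
  have hScard : S.card ≤ M := by
    refine (card_union_le _ _).trans (Nat.add_le_add hE₁c.le ?_)
    refine card_biUnion_le.trans ((sum_le_sum (g := fun _ => m * Bd ℓ (Kl ℓ)) fun w _ => ?_).trans ?_)
    · refine card_biUnion_le.trans ((sum_le_sum fun k _ => hR1 w k).trans ?_)
      rw [sum_const, card_univ, Fintype.card_coe, smul_eq_mul]
      exact Nat.mul_le_mul_right _ (hΛc w)
    · rw [sum_const, card_univ, Fintype.card_coe, smul_eq_mul, hE₁c]
  have hSG : ∀ v ∈ S, Gd N (ℓ * (κ * N)) ℓ v := by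
    intro v hv
    rcases mem_union.1 hv with hv | hv
    · exact gd_of_InR (hLy ⟨v, hv⟩).1 (hIn ⟨v, hv⟩)
    · obtain ⟨w, -, hv⟩ := mem_biUnion.1 hv
      obtain ⟨k, -, hv⟩ := mem_biUnion.1 hv
      exact (hR3 w k v hv).1
  have hN2 : 2 ≤ N := by omega
  have hNℓ : ℓ * ℓ + 1 ≤ N := by omega
  have hN1 : 1 ≤ N := by omega
  have hCN : C ^ N ≤ C' ^ N := by
    refine (le_abs_self _).trans ?_
    rw [abs_pow]
    refine pow_le_pow_left₀ (abs_nonneg _) ?_ _
    have h1 : (0 : ℝ) ≤ (((3 ^ (ℓ * ℓ)) ^ ℓ : ℕ) : ℝ) := Nat.cast_nonneg _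
    rw [hC']
    linarith
  -- the relations
  have hdep : ∀ v ∈ S, v ∉ S.filter (fun w => Lyn w) ∨ v ∈ E₁ →
      DepX (Sum.elim α x) (fun w => ((mz w : ℝ) : ℂ)) (S.filter (fun k => TW k v)) v D' (C' ^ N) := by
    intro v hv hv'
    by_cases hvE : v ∈ E₁
    · refine DepX.mono' ((hΛd ⟨v, hvE⟩).mono fun k hk => mem_filter.2 ⟨?_, (hΛ ⟨v, hvE⟩ k hk).2.2⟩) (by omega) hCN
      exact hRS ⟨v, hvE⟩ ⟨k, hk⟩ (hR2 ⟨v, hvE⟩ ⟨k, hk⟩)
    · have hvL : ¬ Lyn v := by
        intro h
        rcases hv' with h1 | h1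
        · exact h1 (mem_filter.2 ⟨hv, h⟩)
        · exact hvE h1
      have hv2 := (mem_union.1 hv).resolve_left hvE
      obtain ⟨w, -, hv2⟩ := mem_biUnion.1 hv2
      obtain ⟨k, -, hv2⟩ := mem_biUnion.1 hv2
      obtain ⟨L, hL1, hL2, hL3, hL4⟩ := hR4 w k v hv2 hvL
      have hvG := hSG v hv
      have hLG : ∀ l ∈ L, Gd N (ℓ * (κ * N)) ℓ l := fun l hl => factor_gd hL1 (by rw [hL2]; exact hvG) hl
      have hLlen : L.length ≤ ℓ := by
        have h1 : L.length ≤ L.flatten.length := by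
          have h2 : ∀ l ∈ L, 1 ≤ l.length := fun l hl => List.length_pos_iff.2 (hL1.2 l hl).1
          clear hL1 hL2 hL3 hL4 hLG
          induction L with
          | nil => simp
          | cons l L ih =>
            have h3 := h2 l List.mem_cons_self
            have h4 := ih fun l hl => h2 l (List.mem_cons_of_mem _ hl)
            rw [List.flatten_cons, List.length_append, List.length_cons]
            omega
        rw [hL2] at h1
        exact h1.trans hvG.2.1
      refine dep_step (Sum.elim α x) hL2 (fun l hl => mem_filter.2 ⟨hRS w k (hL3 l hl).1, (hL3 l hl).2⟩)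
        (fun w' hw' => ?_) (fun h => TW_irrefl v (mem_filter.1 h).2) ?_ (hLlen.trans (by omega)) (by omega) ?_
      · rcases (hL4 w' hw').2 with h1 | h1
        · exact Or.inl h1
        · exact Or.inr (mem_filter.2 ⟨hRS w k (hL4 w' hw').1, h1⟩)
      · refine mz_prod (n := N) (K := ((ℓ * (κ * N) : ℕ) : ℝ)) (Nat.cast_nonneg _) (r := ℓ) L
          (fun l hl => (hLG l hl).cl le_rfl) ?_
        exact le_trans (Nat.add_le_add_right (Nat.mul_le_mul_right _ hLlen) 1) hNℓ
      · have h1 : (stil L).length ≤ (3 ^ (ℓ * ℓ)) ^ ℓ := by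
          refine (stil_count ℓ L fun v hv => (hLG v hv).2.1).2.trans ?_
          exact (Nat.pow_le_pow_left (Nat.pow_le_pow_right (by omega) (Nat.mul_le_mul_right _ hLlen)) _).trans
            (Nat.pow_le_pow_right (Nat.pos_of_ne_zero (by positivity)) hLlen)
        have h2 : ((stil L).length : ℝ) ≤ (((3 ^ (ℓ * ℓ)) ^ ℓ : ℕ) : ℝ) := by exact_mod_cast h1
        refine le_trans ?_ (le_self_pow₀ hC'1 (by omega : N ≠ 0))
        rw [hC']
        have h3 := abs_nonneg C
        linarith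
  have hcast : ((ℓ * (κ * N) : ℕ) : ℝ) ≤ ((ℓ * κ : ℕ) : ℝ) * (N : ℝ) := by
    push_cast
    rw [mul_assoc]
  have key := @assemble (List ℕ) TWO a t D' (C' ^ N) α x (fun w => ((mz w : ℝ) : ℂ)) S E₁ Lyn
    subset_union_left (fun v hv => hLy ⟨v, hv⟩) (fun s B hs hsS hsB E' hE'B hE' => by
      have hNB : N0 S.card B ≤ N := by
        have h1 : N0 S.card B ≤ ∑ B : Finset (Fin S.card), N0 S.card B :=
          Finset.single_le_sum (f := fun B => N0 S.card B) (fun _ _ => Nat.zero_le _) (mem_univ B)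
        have h2 : ∑ B : Finset (Fin S.card), N0 S.card B ≤ ∑ n ∈ range (M + 1), ∑ B : Finset (Fin n), N0 n B :=
          Finset.single_le_sum (f := fun n => ∑ B : Finset (Fin n), N0 n B) (fun _ _ => Nat.zero_le _)
            (mem_range.2 (by omega))
        omega
      exact h0 S.card B (N, fun i => ((mz (s i) : ℝ) : ℂ)) ⟨s, hs, fun i hi => by
        have h1 := hSG _ (hsS i)
        exact ⟨hsB i hi, h1.cl hcast, h1.ad hN2⟩, rfl⟩ hNB x E' hE'B hE')
    (fun v hv hv' => ⟨S.filter (fun k => TW k v), filter_subset _ _, fun k hk => (mem_filter.1 hk).2,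
      hdep v hv (hv'.imp (fun h h' => h (mem_filter.1 h').2) id)⟩)
  omega

end Pool.Agent.U553.LY
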